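import Pool.Agent.Helper39.MZU.Grp

/-! The lower bound of the dimension for the subgroups: abstract version. -/

set_option autoImplicit false

namespace Pool.Agent.Helper39.MZU

open MZ IsLocalRing Matrix

/-! ### Constant matrices and nilpotent matrices -/

section mats

variable {k T : Type} [Field k] [CommRing T]

lemma map_coe {A B : Type} [CommRing A] [CommRing B] {n : ℕ} (f : A →+* B) (M : GL (Fin n) A) :
    ((Matrix.GeneralLinearGroup.map f M : GL (Fin n) B) : Matrix (Fin n) (Fin n) B) =
      (M : Matrix (Fin n) (Fin n) A).map f := rfl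

/-- conjugation by scalar-equivalent constant matrices agree -/
lemma conj_scalar' {n : ℕ} (C : k →+* T) (M N : GL (Fin n) k) (a : k)
    (h : ((M * N⁻¹ : GL (Fin n) k) : Matrix (Fin n) (Fin n) k) = a • (1 : Matrix (Fin n) (Fin n) k))
    (Y : GL (Fin n) T) :
    Matrix.GeneralLinearGroup.map C M * Y * (Matrix.GeneralLinearGroup.map C M)⁻¹ =
      Matrix.GeneralLinearGroup.map C N * Y * (Matrix.GeneralLinearGroup.map C N)⁻¹ := by
  have h1 : ((Matrix.GeneralLinearGroup.map C (M * N⁻¹) : GL (Fin n) T) :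
      Matrix (Fin n) (Fin n) T) = (C a) • (1 : Matrix (Fin n) (Fin n) T) := by
    rw [map_coe, h]
    ext i j
    by_cases hij : i = j
    · subst hij; simp
    · simp [Matrix.one_apply_ne hij]
  have hc : Matrix.GeneralLinearGroup.map C (M * N⁻¹) * (Matrix.GeneralLinearGroup.map C N * Y *
      (Matrix.GeneralLinearGroup.map C N)⁻¹) = (Matrix.GeneralLinearGroup.map C N * Y *
      (Matrix.GeneralLinearGroup.map C N)⁻¹) * Matrix.GeneralLinearGroup.map C (M * N⁻¹) := by
    refine Units.ext ?_
    rw [Units.val_mul (Matrix.GeneralLinearGroup.map C (M * N⁻¹)),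
      Units.val_mul (Matrix.GeneralLinearGroup.map C N * Y *
      (Matrix.GeneralLinearGroup.map C N)⁻¹), h1, Matrix.smul_mul,
      Matrix.mul_smul, Matrix.one_mul, Matrix.mul_one]
  have h2 : Matrix.GeneralLinearGroup.map C M = Matrix.GeneralLinearGroup.map C (M * N⁻¹) *
      Matrix.GeneralLinearGroup.map C N := by rw [← map_mul]; congr 1; group
  calc Matrix.GeneralLinearGroup.map C M * Y * (Matrix.GeneralLinearGroup.map C M)⁻¹
      = Matrix.GeneralLinearGroup.map C (M * N⁻¹) * (Matrix.GeneralLinearGroup.map C N * Y *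
        (Matrix.GeneralLinearGroup.map C N)⁻¹) *
        (Matrix.GeneralLinearGroup.map C (M * N⁻¹))⁻¹ := by
        rw [h2]; group
    _ = Matrix.GeneralLinearGroup.map C N * Y * (Matrix.GeneralLinearGroup.map C N)⁻¹ := by
        rw [hc]; group

/-- the matrix `s (1, a, b)^T (a + b e, 1, e)` -/
def NN (s a b e : T) : Matrix (Fin 3) (Fin 3) T :=
  !![s * (a + b * e), s, s * e;
     s * a * (a + b * e), s * a, s * a * e;
     s * b * (a + b * e), s * b, s * b * e]

lemma NN_sq (h2 : (2 : T) = 0) (s a b e : T) : NN s a b e * NN s a b e = 0 := by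
  unfold NN
  ext i j
  fin_cases i <;> fin_cases j <;>
    simp only [Matrix.mul_apply, Fin.sum_univ_three, Matrix.zero_apply] <;> simp
  · linear_combination (s * (a + b * e)) * s * (a + b * e) * h2
  · linear_combination s * s * (a + b * e) * h2
  · linear_combination s * s * e * (a + b * e) * h2
  · linear_combination (s * a * (a + b * e)) * s * (a + b * e) * h2
  · linear_combination s * a * s * (a + b * e) * h2
  · linear_combination s * a * s * e * (a + b * e) * h2
  · linear_combination (s * b * (a + b * e)) * s * (a + b * e) * h2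
  · linear_combination s * b * s * (a + b * e) * h2
  · linear_combination s * b * s * e * (a + b * e) * h2

lemma two_add (h2 : (2 : T) = 0) (X : Matrix (Fin 3) (Fin 3) T) : X + X = 0 := by
  rw [← two_smul T X, h2, zero_smul]

/-- the involution `1 + N` -/
def XX (h2 : (2 : T) = 0) (s a b e : T) : GL (Fin 3) T where
  val := 1 + NN s a b e
  inv := 1 + NN s a b e
  val_inv := by
    rw [mul_add, add_mul, add_mul, mul_one, mul_one, one_mul, NN_sq h2, add_zero, add_assoc,
      two_add h2, add_zero]
  inv_val := by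
    rw [mul_add, add_mul, add_mul, mul_one, mul_one, one_mul, NN_sq h2, add_zero, add_assoc,
      two_add h2, add_zero]

lemma XX_coe (h2 : (2 : T) = 0) (s a b e : T) :
    ((XX h2 s a b e : GL (Fin 3) T) : Matrix (Fin 3) (Fin 3) T) = 1 + NN s a b e := rfl

lemma XX_sq (h2 : (2 : T) = 0) (s a b e : T) : XX h2 s a b e * XX h2 s a b e = 1 := by
  have : XX h2 s a b e * (XX h2 s a b e)⁻¹ = 1 := mul_inv_cancel _
  exact this

lemma XX_red (h2 : (2 : T) = 0) (s a b e : T) (r : T →+* k) (hs : r s = 0) :
    Matrix.GeneralLinearGroup.map r (XX h2 s a b e) = 1 := by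
  ext i j
  rw [Matrix.GeneralLinearGroup.map_apply, XX_coe]
  show r ((1 + NN s a b e) i j) = (1 : Matrix (Fin 3) (Fin 3) k) i j
  unfold NN
  fin_cases i <;> fin_cases j <;> simp [hs]

end mats

/-- `f (tr ρu) = tr ρ` -/
lemma trace_univ {p : ℕ} [Fact p.Prime] {k : Type} [Field k] [CharP k p] {G : Type} [Group G]
    [TopologicalSpace G] {n : ℕ} (R T : CNL p k) (ρu : G →* GL (Fin n) R.A)
    (ρ : G →* GL (Fin n) T.A) (f : R.A →ₐ[WittVector p k] T.A)
    (h : StrictEquiv T ((Matrix.GeneralLinearGroup.map (f : R.A →+* T.A)).comp ρu) ρ) (g : G) :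
    f ((ρu g : Matrix (Fin n) (Fin n) R.A).trace) =
      (ρ g : Matrix (Fin n) (Fin n) T.A).trace := by
  obtain ⟨M, -, hM⟩ := h
  rw [hM g, Units.val_mul, Units.val_mul, Matrix.trace_mul_comm, ← mul_assoc, ← Units.val_mul,
    inv_mul_cancel, Units.val_one, one_mul]
  show _ = Matrix.trace ((ρu g : Matrix (Fin n) (Fin n) R.A).map (f : R.A →+* T.A))
  rw [Matrix.trace, Matrix.trace, map_sum]
  rfl

end Pool.Agent.Helper39.MZU
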