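import Pool.Graph.R_seed8.W294.MZ.Strong

/-!
# MP_aa8fd2_nt: unbounded defect in Mazur's dimension conjecture: statements of the modules

The library (`Pool/Graph/R_seed8/W566/MZ/*`) shows: `F = ℚ(√5)`, `n = 3`, `p = 2`, `δ = 1`, and
`dim R/2R ≥ 2`. The proof: for a certain totally real `L/F` of degree 9, `P = Gal(L_∞/L)` is the free
pro-2 product of the groups of order 2 generated by the complex conjugations `c τ` and of a free group
generated by `σ` (`TopGen c σ` and `Assign c σ`), so that `c τ` can be deformed to arbitrary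
involutions `1 + N`, `N² = 0`, in characteristic 2.

Here: the same for the open subgroups of index `2^m` which contain all `c τ` (`SUBT`, `SUBA`), values in
power series rings `T` in several variables (`LIM`, `EXT`, `PS`), all `N` with `N² = 0`
(4 parameters for each real place), so `dim R/2R ≥ 4 [F : ℚ] + 1` (`CHAIN`, `BUR`).
-/

set_option autoImplicit false

namespace Pool.Agent.Helper39.MZU

open MZ NumberField IsDedekindDomain IsLocalRing

/-- LIM: the library's `StmLim` (`Pool/Graph/R_seed8/W402/MZ/Lim.lean`) for complete noetherian local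
rings `T` of characteristic 2 with finite residue field, instead of `PowerSeries k`, and with an
arbitrary value `u` at `σ`. Proof: copy of `Lim.lean`, with `T ⧸ maximalIdeal T ^ m` instead of `RR k m`
(finite because `T` is noetherian with finite residue field). -/
def S_LIM : Prop :=
  ∀ (P : Type) [Group P] [TopologicalSpace P] [IsTopologicalGroup P] [CompactSpace P]
    [TotallyDisconnectedSpace P] (ι : Type) (c : ι → P) (σ : P), TopGen c σ → Assign c σ →
    ∀ (k T : Type) [Field k] [Finite k] [CommRing T] [IsLocalRing T] [IsNoetherianRing T]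
      [IsAdicComplete (maximalIdeal T) T] (r : T →+* k), Function.Surjective r → (2 : T) = 0 →
    ∀ (n : ℕ) (t : ι → GL (Fin n) T) (u : GL (Fin n) T), (∀ i, t i * t i = 1) →
      (∀ i, Matrix.GeneralLinearGroup.map r (t i) = 1) → Matrix.GeneralLinearGroup.map r u = 1 →
      ∃ ψ : P →* GL (Fin n) T,
        (∀ g, Matrix.GeneralLinearGroup.map r (ψ g) = 1) ∧
        (∀ m : ℕ, IsOpen {g : P | ∀ a b : Fin n,
          ((ψ g : Matrix (Fin n) (Fin n) T) - 1) a b ∈ maximalIdeal T ^ m}) ∧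
        (∀ i, ψ (c i) = t i) ∧ ψ σ = u

/-- EXT: the library's `extend_rep` (`Pool/Graph/R_seed8/W566/MZ/Asm1.lean`) for complete noetherian
local rings `T` with a section `C : k → T` of the residue map, and with an arbitrary value `u` at `σ`
which commutes with the constant matrices of `res ⁻¹ A`. Proof: copy of `Asm1.lean` (`congr1` is the
kernel of `GL_n(T) → GL_n(T / m_T ^ m)`). -/
def S_EXT : Prop :=
  ∀ (P G 𝒢 : Type) [Group P] [TopologicalSpace P] [IsTopologicalGroup P]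
    [Group G] [TopologicalSpace G] [IsTopologicalGroup G]
    [Group 𝒢] [TopologicalSpace 𝒢] [IsTopologicalGroup 𝒢]
    (j : P →* G), Function.Injective j → IsOpenMap j → Continuous j → j.range.Normal →
    ∀ (res : 𝒢 →* G), Continuous res → Function.Surjective res →
    ∀ (A : Subgroup G), A ⊓ j.range = ⊥ → (∀ g : G, ∃ a ∈ A, ∃ q ∈ j.range, g = q * a) →
    ∀ (ι : Type) (c : ι → P) (σ : P), TopGen c σ → ∀ (π : G → ι → ι),
    (∀ b ∈ A, ∀ i, b * j (c i) * b⁻¹ = j (c (π b i))) → (∀ b ∈ A, b * j σ * b⁻¹ = j σ) →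
    ∀ (k T : Type) [Field k] [CommRing T] [IsLocalRing T] [IsNoetherianRing T]
      [IsAdicComplete (maximalIdeal T) T] (r : T →+* k) (C : k →+* T), (∀ a, r (C a) = a) →
    ∀ (n : ℕ) (ρbar : 𝒢 →* GL (Fin n) k), IsOpen (ρbar.ker : Set 𝒢) →
    (∀ g, res g ∈ j.range → ∃ a : k,
      (ρbar g : Matrix (Fin n) (Fin n) k) = a • (1 : Matrix (Fin n) (Fin n) k)) →
    ∀ (t : ι → GL (Fin n) T) (u : GL (Fin n) T),
    (∀ g : 𝒢, res g ∈ A → ∀ i, t (π (res g) i) =
      Matrix.GeneralLinearGroup.map C (ρbar g) * t i *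
        (Matrix.GeneralLinearGroup.map C (ρbar g))⁻¹) →
    (∀ g : 𝒢, res g ∈ A → u = Matrix.GeneralLinearGroup.map C (ρbar g) * u *
        (Matrix.GeneralLinearGroup.map C (ρbar g))⁻¹) →
    ∀ (ψ : P →* GL (Fin n) T), (∀ g, Matrix.GeneralLinearGroup.map r (ψ g) = 1) →
    (∀ m : ℕ, IsOpen {g : P | ∀ a b : Fin n,
          ((ψ g : Matrix (Fin n) (Fin n) T) - 1) a b ∈ maximalIdeal T ^ m}) →
    (∀ i, ψ (c i) = t i) → ψ σ = u →
    ∃ ρ : 𝒢 →* GL (Fin n) T,
      (∀ g, Matrix.GeneralLinearGroup.map r (ρ g) = ρbar g) ∧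
      (∀ m : ℕ, IsOpen {g : 𝒢 | ∀ a b : Fin n,
          ((ρ g : Matrix (Fin n) (Fin n) T) - 1) a b ∈ maximalIdeal T ^ m}) ∧
      (∀ g : 𝒢, ∀ q : P, ∀ a ∈ A, res g = j q * a →
        ρ g = ψ q * Matrix.GeneralLinearGroup.map C (ρbar g))

/-- The generators `σ ^ r * c i * σ ^ (- r)`, `0 ≤ r < 2 ^ m`, and `σ ^ (2 ^ m)` of the kernel of `χ`. -/
def Conj {P : Type} [Group P] {ι : Type} (c : ι → P) (σ : P) (m : ℕ) (N : Subgroup P)
    (c₀ : ι × Fin (2 ^ m) → N) (σ₀ : N) : Prop :=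
  (∀ i r, (c₀ (i, r) : P) = σ ^ (r : ℕ) * c i * (σ ^ (r : ℕ))⁻¹) ∧ (σ₀ : P) = σ ^ (2 ^ m)

/-- SUBT: the kernel of `χ : P → ℤ/2^m`, `χ (c i) = 0`, `χ σ = 1`, is generated by the
`σ ^ r * c i * σ ^ (- r)`, `0 ≤ r < 2 ^ m`, and `σ ^ (2 ^ m)`. Proof: let `D` be the abstract group
generated by the `c i` and `σ`, and `N₀` the one generated by the new elements; `N₀` is normalised by
`σ`, so `D = ⋃ N₀ σ ^ r` and `D ∩ ker χ = N₀`. If `U` is an open subgroup of `ker χ` containing `N₀`,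
let `V` be its normal core in `P` (open); `D V` is an open subgroup containing the generators, so it
is `P`; for `x ∈ ker χ`, `x = d v`, `d ∈ D ∩ ker χ = N₀ ≤ U`, so `x ∈ U`. -/
def S_SUBT : Prop :=
  ∀ (P : Type) [Group P] [TopologicalSpace P] [IsTopologicalGroup P] [CompactSpace P]
    [TotallyDisconnectedSpace P] (ι : Type) (c : ι → P) (σ : P), TopGen c σ →
    ∀ (m : ℕ) (χ : P →* Multiplicative (ZMod (2 ^ m))), IsOpen (χ.ker : Set P) →
      (∀ i, χ (c i) = 1) → χ σ = Multiplicative.ofAdd 1 →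
    ∀ (c₀ : ι × Fin (2 ^ m) → χ.ker) (σ₀ : χ.ker), Conj c σ m χ.ker c₀ σ₀ → TopGen c₀ σ₀

/-- SUBA: the assignment property for the kernel of `χ`. Proof: given `H`, `t₀`, `u₀`, apply
`Assign c σ` to the (regular) wreath product `H ≀ ℤ/2^m` with `c i ↦ (t₀ (i, r))_r` and `σ ↦` the
product of the cyclic shift and of `u₀` in one coordinate, so that the coordinate `0` of the image of
`σ ^ r * c i * σ ^ (- r)` is `t₀ (i, r)` for `0 ≤ r < 2 ^ m` and the one of the image of `σ ^ (2 ^ m)`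
is `u₀`; `ker χ` is mapped to the base group (by `TopGen`, the composition with the projection to
`ℤ/2^m` is `χ` or `- χ`). -/
def S_SUBA : Prop :=
  ∀ (P : Type) [Group P] [TopologicalSpace P] [IsTopologicalGroup P] [CompactSpace P]
    [TotallyDisconnectedSpace P] (ι : Type) (c : ι → P) (σ : P), TopGen c σ → Assign c σ →
    ∀ (m : ℕ) (χ : P →* Multiplicative (ZMod (2 ^ m))), IsOpen (χ.ker : Set P) →
      (∀ i, χ (c i) = 1) → χ σ = Multiplicative.ofAdd 1 →
    ∀ (c₀ : ι × Fin (2 ^ m) → χ.ker) (σ₀ : χ.ker), Conj c σ m χ.ker c₀ σ₀ → Assign c₀ σ₀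

/-- CHAIN: let `f : R → k⟦X_i⟧` be a homomorphism whose image contains `X_i` for `s i = i` and
`X_i X_{s i}` for `s i ≠ i`. Then `dim R/2R` is at least the number of variables. Proof: for a set `Z`
of variables the power series without monomials outside of `Z`-divisible ones (all coefficients at
monomials which do not involve `Z` vanish) form a prime ideal `p_Z`; enumerate the variables, first
those with `s i ≠ i`, then those with `s i = i`; the preimages of the `p_Z` for the initial segments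
`Z` are a strictly increasing chain of prime ideals of `R` which contain `2`. -/
def S_CHAIN : Prop :=
  ∀ (k : Type) [Field k], (2 : k) = 0 → ∀ (τ : Type) [Fintype τ] (s : τ → τ) (R : Type) [CommRing R]
    (f : R →+* MvPowerSeries τ k), (∀ i, s (s i) = s i) →
    (∀ i, s i = i → ∃ x, f x = MvPowerSeries.X i) →
    (∀ i, s i ≠ i → ∃ x, f x = MvPowerSeries.X i * MvPowerSeries.X (s i)) →
    ((Fintype.card τ : ℕ) : WithBot ℕ∞) ≤ ringKrullDim (R ⧸ Ideal.span {((2 : ℕ) : R)})

/-- PS: `k⟦X_i⟧` is an object of `CNL 2 k`. Proof: `Pool.Agent.W21.MZ.exA` for `W = k` (`exists_PS` in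
`Pool/Graph/R_seed8/W294/MZ/ExCore.lean` does it for `W = W(k)`), the algebra structure is
`W(k) → k → k⟦X_i⟧`. -/
def S_PS : Prop :=
  ∀ (k : Type) [Field k] [Finite k] [CharP k 2] (τ : Type) [Finite τ],
    ∃ (T : CNL 2 k) (e : T.A ≃+* MvPowerSeries τ k),
      (∀ x, T.res x = MvPowerSeries.constantCoeff (e x)) ∧
      ∀ x : WittVector 2 k, e (algebraMap (WittVector 2 k) T.A x) = MvPowerSeries.C (x.coeff 0)

/-- BC: base change of unramifiedness: `F_S ⊆ (F')_{S'}` for finite `F'/F`, `S'` the places of `F'`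
above `S`. Proof: `MZ413.fix_of_unram`, `MZ413.unram_of_fix`, `MZ413.unram_iff_inertia` in
`Pool/Graph/R_seed8/W413/MZ/H1.lean`: for `M/F` finite, unramified outside `S`, let `E/F` be a finite
Galois extension containing `M` and `F'`; an element of an inertia group of `Gal(E/F')` is in the
inertia group of `Gal(E/F)`, so it fixes `M`, hence `M F'` is unramified outside `S'` over `F'`. -/
def S_BC : Prop :=
  ∀ (F Ω : Type) [Field F] [NumberField F] [Field Ω] [Algebra F Ω] [IsAlgClosure F Ω]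
    (S : Set (HeightOneSpectrum (𝓞 F))) (F' : IntermediateField F Ω) [NumberField F']
    [FiniteDimensional F F'] (x : Ω), x ∈ (FSmax S : IntermediateField F Ω) →
    x ∈ (FSmax {w : HeightOneSpectrum (𝓞 F') | ∃ v ∈ S,
      w.asIdeal.comap (algebraMap (𝓞 F) (𝓞 F')) = v.asIdeal} : IntermediateField F' Ω)

/-- BUR: Burnside's theorem. Proof: Jacobson density (`Module.Finite.toModuleEnd_moduleEnd_surjective`
or `jacobson_density`) and `MZEX.schur` over the algebraic closure; descend with a linear form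
`X ↦ trace (B X)`, `B` over `k`, which vanishes on the span. -/
def S_BUR : Prop :=
  ∀ (k : Type) [Field k] (G : Type) [Group G] (n : ℕ) (ρbar : G →* GL (Fin n) k), 0 < n →
    AbsIrred ρbar →
    Submodule.span k (Set.range fun g => (ρbar g : Matrix (Fin n) (Fin n) k)) = ⊤

/-- DEL: `δ = 1` over totally real fields. Proof: copy of `Pool/Graph/R_seed8/W505/MZ/Delta.lean`. -/
def S_DEL : Prop :=
  ∀ (F Ω : Type) [Field F] [NumberField F] [Field Ω] [Algebra F Ω]
    (S : Set (HeightOneSpectrum (𝓞 F))) (k : Type) [Field k] (ρbar : GFS Ω S →* GL (Fin 3) k),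
    (∀ τ : F →+* ℂ, ComplexEmbedding.IsReal τ) → (∀ g : GFS Ω S, g * g = 1 → ρbar g = 1) →
    ∀ w : InfinitePlace F → InfinitePlace (FSmax S : IntermediateField F Ω),
      (∀ v : InfinitePlace F,
        (w v).comap (algebraMap F (FSmax S : IntermediateField F Ω)) = v) →
      delta S ρbar w = 1

/-- PKG: the first part (up to `hAssign` and `hσc`) of the proof of `MZ.asm2`
(`Pool/Graph/R_seed8/W566/MZ/Asm2.lean`), as a statement of its own. -/
def S_PKG : Prop :=
  ∀ (F L E : Type) [Field F] [NumberField F] [Field L] [NumberField L] [Field E]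
    [Algebra F L] [Algebra L E] [Algebra F E] [IsScalarTower F L E]
    [FiniteDimensional F L] [IsGalois F L] [IsGalois F E] [IsGalois L E],
    Module.finrank F L = 9 → (∀ τ : L →+* ℂ, ComplexEmbedding.IsReal τ) →
    ∀ (r : E), r ^ 2 = 2 → r ∉ (algebraMap L E).range → ProTwo Gal(E/L) →
    (∀ (φ : (L →+* ℂ) → (E →+* ℂ)) (c : (L →+* ℂ) → Gal(E/L)),
      (∀ τ, (φ τ).comp (algebraMap L E) = τ) → (∀ τ, ComplexEmbedding.IsConj (φ τ) (c τ)) →
      ∀ N : Subgroup Gal(E/L), N.Normal → IsOpen (N : Set Gal(E/L)) →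
        2 ^ (∑ τ, orb N (c τ) + 1) ≤ numHom2 N) →
    (∀ (φ : (L →+* ℂ) → (E →+* ℂ)) (c : (L →+* ℂ) → Gal(E/L)) (σ : Gal(E/L)),
      (∀ τ, (φ τ).comp (algebraMap L E) = τ) → (∀ τ, ComplexEmbedding.IsConj (φ τ) (c τ)) →
      (∀ r : E, r ^ 2 = 2 → σ r ≠ r) → TopGen c σ) →
    ∃ (A : Subgroup Gal(E/F)) (σ : Gal(E/L)) (a : (L →+* ℂ) → Gal(E/F))
      (φ : (L →+* ℂ) → (E →+* ℂ)) (c : (L →+* ℂ) → Gal(E/L))
      (π : Gal(E/F) → (L →+* ℂ) → (L →+* ℂ)),
      A ⊓ (jR F L E).range = ⊥ ∧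
      (∀ g : Gal(E/F), ∃ a ∈ A, ∃ q ∈ (jR F L E).range, g = q * a) ∧
      (∀ b ∈ A, b * jR F L E σ * b⁻¹ = jR F L E σ) ∧
      (∀ τ, a τ ∈ A) ∧
      (∀ b τ, (π b τ).comp (algebraMap F L) = τ.comp (algebraMap F L)) ∧
      (∀ b ∈ A, ∀ τ, a (π b τ) = b * a τ) ∧
      (∀ b ∈ A, ∀ τ, b * jR F L E (c τ) * b⁻¹ = jR F L E (c (π b τ))) ∧
      (∀ v : F →+* ℂ, ∃ τ : L →+* ℂ, τ.comp (algebraMap F L) = v ∧ a τ = 1) ∧
      (∀ τ, (φ τ).comp (algebraMap L E) = τ) ∧
      (∀ τ, ComplexEmbedding.IsConj (φ τ) (c τ)) ∧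
      (∀ τ, c τ * c τ = 1) ∧ TopGen c σ ∧ Assign c σ

end Pool.Agent.Helper39.MZU
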