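import Mathlib.RingTheory.MvPowerSeries.NoZeroDivisors
import Mathlib.RingTheory.KrullDimension.Basic
import Pool.Agent.Helper39.MZU.Base

/-!
# MP_aa8fd2_nt: chain of primes in a power series ring (helper90)
-/

set_option autoImplicit false

namespace Pool.Agent.Helper39.MZU.Chain

open MvPowerSeries Finset

section

variable {k : Type} [Field k] {τ : Type}

open scoped Classical in
/-- put the variables of `Z` equal to zero -/
noncomputable def kill (Z : Finset τ) : MvPowerSeries τ k →+* MvPowerSeries τ k where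
  toFun x := fun m => if ∀ i ∈ Z, m i = 0 then coeff m x else 0
  map_one' := by
    funext m
    change (if ∀ i ∈ Z, m i = 0 then coeff m (1 : MvPowerSeries τ k) else 0) = coeff m 1
    by_cases h : ∀ i ∈ Z, m i = 0
    · rw [if_pos h]
    · rw [if_neg h, coeff_one, if_neg]
      rintro rfl
      exact h (fun i _ => rfl)
  map_mul' x y := by
    apply MvPowerSeries.ext
    intro m
    rw [coeff_mul]
    change (if ∀ i ∈ Z, m i = 0 then coeff m (x * y) else 0) = ∑ p ∈ antidiagonal m,
      (if ∀ i ∈ Z, p.1 i = 0 then coeff p.1 x else 0) *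
      (if ∀ i ∈ Z, p.2 i = 0 then coeff p.2 y else 0)
    by_cases h : ∀ i ∈ Z, m i = 0
    · rw [if_pos h, coeff_mul]
      refine Finset.sum_congr rfl fun p hp => ?_
      rw [Finset.HasAntidiagonal.mem_antidiagonal] at hp
      have h1 : ∀ i ∈ Z, p.1 i = 0 := fun i hi => by
        have := h i hi
        rw [← hp, Finsupp.add_apply] at this
        omega
      have h2 : ∀ i ∈ Z, p.2 i = 0 := fun i hi => by
        have := h i hi
        rw [← hp, Finsupp.add_apply] at this
        omega
      rw [if_pos h1, if_pos h2]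
    · rw [if_neg h]
      symm
      refine Finset.sum_eq_zero fun p hp => ?_
      rw [Finset.HasAntidiagonal.mem_antidiagonal] at hp
      by_cases h1 : ∀ i ∈ Z, p.1 i = 0
      · have h2 : ¬ ∀ i ∈ Z, p.2 i = 0 := fun h2 => h fun i hi => by
          rw [← hp, Finsupp.add_apply, h1 i hi, h2 i hi]
        rw [if_neg h2, mul_zero]
      · rw [if_neg h1, zero_mul]
  map_zero' := by
    funext m
    change (if ∀ i ∈ Z, m i = 0 then coeff m (0 : MvPowerSeries τ k) else 0) = 0
    rw [map_zero, ite_self]
  map_add' x y := by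
    funext m
    change (if ∀ i ∈ Z, m i = 0 then coeff m (x + y) else 0) =
      (if ∀ i ∈ Z, m i = 0 then coeff m x else 0) + (if ∀ i ∈ Z, m i = 0 then coeff m y else 0)
    by_cases h : ∀ i ∈ Z, m i = 0
    · simp only [if_pos h, map_add]
    · simp only [if_neg h, add_zero]

lemma kill_eq_zero (Z : Finset τ) (x : MvPowerSeries τ k) :
    kill Z x = 0 ↔ ∀ m : τ →₀ ℕ, (∀ i ∈ Z, m i = 0) → coeff m x = 0 := by
  classical
  constructor
  · intro h m hm
    have := congrArg (coeff m) h
    change (if ∀ i ∈ Z, m i = 0 then coeff m x else 0) = coeff m (0 : MvPowerSeries τ k) at this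
    rwa [if_pos hm, map_zero] at this
  · intro h
    apply MvPowerSeries.ext
    intro m
    change (if ∀ i ∈ Z, m i = 0 then coeff m x else 0) = coeff m (0 : MvPowerSeries τ k)
    rw [map_zero]
    by_cases hm : ∀ i ∈ Z, m i = 0
    · rw [if_pos hm, h m hm]
    · rw [if_neg hm]

lemma kill_mono {Z Z' : Finset τ} (h : Z ⊆ Z') (x : MvPowerSeries τ k) (hx : kill Z x = 0) :
    kill Z' x = 0 := by
  rw [kill_eq_zero] at hx ⊢
  exact fun m hm => hx m fun i hi => hm i (h hi)

lemma kill_X_mem {Z : Finset τ} {i : τ} (hi : i ∈ Z) : kill Z (X i : MvPowerSeries τ k) = 0 := by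
  classical
  rw [kill_eq_zero]
  intro m hm
  rw [coeff_X, if_neg]
  rintro rfl
  have := hm i hi
  simp at this

lemma kill_X_notMem {Z : Finset τ} {i : τ} (hi : i ∉ Z) :
    kill Z (X i : MvPowerSeries τ k) ≠ 0 := by
  classical
  intro h
  rw [kill_eq_zero] at h
  have := h (Finsupp.single i 1) (fun j hj => by
    rw [Finsupp.single_apply, if_neg]
    rintro rfl
    exact hi hj)
  rw [coeff_X, if_pos rfl] at this
  exact one_ne_zero this

end

theorem main : S_CHAIN := by
  classical
  intro k _ h2 τ _ s R _ f hs hX hXX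
  haveI : IsDomain (MvPowerSeries τ k) := NoZeroDivisors.to_isDomain _
  set I : Ideal R := Ideal.span {((2 : ℕ) : R)} with hI
  have hker : ∀ Z : Finset τ, ∀ a ∈ I, ((kill Z).comp f) a = 0 := by
    intro Z a ha
    have h2' : ((kill Z).comp f) ((2 : ℕ) : R) = 0 := by
      rw [map_natCast]
      have : ((2 : ℕ) : MvPowerSeries τ k) = C ((2 : ℕ) : k) := by rw [map_natCast]
      rw [this]
      have h3 : ((2 : ℕ) : k) = 0 := by exact_mod_cast h2
      rw [h3, map_zero]
    have : I ≤ RingHom.ker ((kill Z).comp f) := by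
      rw [hI, Ideal.span_le]
      rintro _ rfl
      exact h2'
    exact this ha
  let F : Finset τ → (R ⧸ I →+* MvPowerSeries τ k) := fun Z =>
    Ideal.Quotient.lift I ((kill Z).comp f) (hker Z)
  have hF : ∀ Z x, F Z (Ideal.Quotient.mk I x) = kill Z (f x) := fun Z x => rfl
  let Q : Finset τ → PrimeSpectrum (R ⧸ I) := fun Z => ⟨RingHom.ker (F Z), RingHom.ker_isPrime _⟩
  have hlt : ∀ (Z : Finset τ) (i : τ), i ∉ Z → (s i ≠ i → s i ∉ Z) → Q Z < Q (insert i Z) := by
    intro Z i hi hsi
    have hle : Q Z ≤ Q (insert i Z) := by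
      change RingHom.ker (F Z) ≤ RingHom.ker (F (insert i Z))
      intro y hy
      obtain ⟨x, rfl⟩ := Ideal.Quotient.mk_surjective y
      rw [RingHom.mem_ker, hF] at hy ⊢
      exact kill_mono (Finset.subset_insert i Z) _ hy
    refine lt_of_le_not_ge hle ?_
    intro hge
    have hge' : RingHom.ker (F (insert i Z)) ≤ RingHom.ker (F Z) := hge
    by_cases h : s i = i
    · obtain ⟨x, hx⟩ := hX i h
      have h1 : Ideal.Quotient.mk I x ∈ RingHom.ker (F (insert i Z)) := by
        rw [RingHom.mem_ker, hF, hx]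
        exact kill_X_mem (Finset.mem_insert_self i Z)
      have h3 := hge' h1
      rw [RingHom.mem_ker, hF, hx] at h3
      exact kill_X_notMem hi h3
    · obtain ⟨x, hx⟩ := hXX i h
      have h1 : Ideal.Quotient.mk I x ∈ RingHom.ker (F (insert i Z)) := by
        rw [RingHom.mem_ker, hF, hx, map_mul, kill_X_mem (Finset.mem_insert_self i Z), zero_mul]
      have h3 := hge' h1
      rw [RingHom.mem_ker, hF, hx, map_mul] at h3
      rcases mul_eq_zero.mp h3 with h4 | h4
      · exact kill_X_notMem hi h4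
      · exact kill_X_notMem (hsi h) h4
  have key : ∀ (n : ℕ) (Z : Finset τ), Z.card = n →
      ((∃ j ∈ Z, s j = j) → ∀ i, s i ≠ i → i ∈ Z) → (n : ℕ∞) ≤ Order.height (Q Z) := by
    intro n
    induction n with
    | zero => intro Z _ _; simp
    | succ n ih =>
      intro Z hZ hadm
      have hne : Z.Nonempty := by rw [← Finset.card_pos, hZ]; omega
      -- the element to remove
      obtain ⟨i, hiZ, hi⟩ : ∃ i ∈ Z, (∃ j ∈ Z, s j = j) → s i = i := by
        by_cases h : ∃ j ∈ Z, s j = j
        · obtain ⟨j, hj, hj'⟩ := h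
          exact ⟨j, hj, fun _ => hj'⟩
        · obtain ⟨j, hj⟩ := hne
          exact ⟨j, hj, fun h' => absurd h' h⟩
      have hc : (Z.erase i).card = n := by rw [Finset.card_erase_of_mem hiZ, hZ]; rfl
      have hadm' : (∃ j ∈ Z.erase i, s j = j) → ∀ l, s l ≠ l → l ∈ Z.erase i := by
        rintro ⟨j, hj, hj'⟩ l hl
        have h1 : ∃ j ∈ Z, s j = j := ⟨j, Finset.mem_of_mem_erase hj, hj'⟩
        rw [Finset.mem_erase]
        refine ⟨?_, hadm h1 l hl⟩
        rintro rfl
        exact hl (hi h1)
      have h1 := ih (Z.erase i) hc hadm'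
      have h3 : Q (Z.erase i) < Q Z := by
        have := hlt (Z.erase i) i (Finset.notMem_erase i Z) (fun hsi hmem => by
          have h4 : ∃ j ∈ Z, s j = j := ⟨s i, Finset.mem_of_mem_erase hmem, hs i⟩
          exact hsi (hi h4))
        rwa [Finset.insert_erase hiZ] at this
      calc ((n + 1 : ℕ) : ℕ∞) = (n : ℕ∞) + 1 := by push_cast; rfl
        _ ≤ Order.height (Q (Z.erase i)) + 1 := by gcongr
        _ ≤ Order.height (Q Z) := Order.height_add_one_le h3
  have h5 := key (Fintype.card τ) Finset.univ Finset.card_univ (fun _ i _ => Finset.mem_univ i)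
  have h6 : ((Order.height (Q Finset.univ) : ℕ∞) : WithBot ℕ∞) ≤ ringKrullDim (R ⧸ I) :=
    Order.height_le_krullDim _
  refine le_trans ?_ h6
  exact_mod_cast h5

end Pool.Agent.Helper39.MZU.Chain
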