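import Pool.Agent.Helper39.MZU.Base

/-! `δ = 1` over totally real fields. -/

set_option autoImplicit false

namespace Pool.Agent.Helper39.MZU.Del

open MZ NumberField IsDedekindDomain

theorem main : S_DEL := by
  classical
  intro F Ω _ _ _ _ S k _ ρbar hreal hρ w hw
  have hnc : InfinitePlace.nrComplexPlaces F = 0 := by
    unfold InfinitePlace.nrComplexPlaces
    rw [Fintype.card_eq_zero_iff]
    constructor
    rintro ⟨w, hw⟩
    rw [InfinitePlace.isComplex_iff] at hw
    exact hw (hreal _)
  have hcard : Fintype.card (InfinitePlace F) = Module.finrank ℚ F := by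
    have h1 := InfinitePlace.card_eq_nrRealPlaces_add_nrComplexPlaces F
    have h2 := InfinitePlace.card_add_two_mul_card_eq_rank F
    rw [hnc] at h1 h2
    omega
  have key : ∀ v : InfinitePlace F,
      Module.finrank k (ad0Inv ρbar (MulAction.stabilizer (GFS Ω S) (w v))) = 8 := by
    intro v
    rw [← Pool.Agent.W505.MZ.finrank_trace k]
    have : ad0Inv ρbar (MulAction.stabilizer (GFS Ω S) (w v)) =
        LinearMap.ker (Matrix.traceLinearMap (Fin 3) k k) := by
      ext X
      constructor
      · intro hX
        exact hX.1
      · intro hX
        refine ⟨hX, ?_⟩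
        intro g hg
        have hg2 : g * g = 1 := by
          rw [← InfinitePlace.mk_embedding (w v), InfinitePlace.mem_stabilizer_mk_iff] at hg
          rcases hg with rfl | hg
          · simp
          · apply AlgEquiv.ext
            intro x
            apply (InfinitePlace.embedding (w v)).injective
            show InfinitePlace.embedding (w v) (g (g x)) = InfinitePlace.embedding (w v) x
            rw [hg.eq, hg.eq, star_star]
        rw [hρ g hg2]
        simp
    rw [this]
  unfold MZ.delta
  rw [Finset.sum_congr rfl (fun v _ => by rw [key v]), Finset.sum_const, Finset.card_univ, hcard,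
    hnc]
  simp only [nsmul_eq_mul]
  push_cast
  ring

end Pool.Agent.Helper39.MZU.Del
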