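import Pool.Agent.Helper39.MZU.Abs

/-! The lower bound of the dimension for the subgroups: abstract version, main part. -/

set_option autoImplicit false

namespace Pool.Agent.Helper39.MZU

open MZ IsLocalRing Matrix

theorem dim_ge (hLIM : S_LIM) (hEXT : S_EXT) (hSUBT : S_SUBT) (hSUBA : S_SUBA) (hCHAIN : S_CHAIN)
    (hPS : S_PS) (hBUR : S_BUR)
    {P G 𝒢 𝒢' : Type} [Group P] [TopologicalSpace P] [IsTopologicalGroup P] [CompactSpace P]
    [TotallyDisconnectedSpace P]
    [Group G] [TopologicalSpace G] [IsTopologicalGroup G]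
    [Group 𝒢] [TopologicalSpace 𝒢] [IsTopologicalGroup 𝒢]
    [Group 𝒢'] [TopologicalSpace 𝒢'] [IsTopologicalGroup 𝒢']
    (j : P →* G) (hj : Function.Injective j) (hjo : IsOpenMap j) (hjc : Continuous j)
    (hjn : j.range.Normal)
    (res : 𝒢 →* G) (hres : Continuous res) (hsurj : Function.Surjective res)
    (inc : 𝒢' →* 𝒢) (hinc : Continuous inc)
    (A : Subgroup G) (hA : A ⊓ j.range = ⊥) (hA' : ∀ g : G, ∃ a ∈ A, ∃ q ∈ j.range, g = q * a)
    {ι : Type} (c : ι → P) (σ : P) (hT : TopGen c σ) (hAs : Assign c σ) (π : G → ι → ι)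
    {V : Type} [Fintype V] (a : ι → G) (v : ι → V)
    (haA : ∀ τ, a τ ∈ A) (hπv : ∀ b τ, v (π b τ) = v τ) (hπa : ∀ b ∈ A, ∀ τ, a (π b τ) = b * a τ)
    (hπ : ∀ b ∈ A, ∀ i, b * j (c i) * b⁻¹ = j (c (π b i))) (hσ : ∀ b ∈ A, b * j σ * b⁻¹ = j σ)
    (ha1 : ∀ x : V, ∃ τ, v τ = x ∧ a τ = 1)
    (m : ℕ) (χ : P →* Multiplicative (ZMod (2 ^ m))) (χ' : G →* Multiplicative (ZMod (2 ^ m)))
    (hχo : IsOpen (χ.ker : Set P)) (hχc : ∀ i, χ (c i) = 1) (hχσ : χ σ = Multiplicative.ofAdd 1)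
    (hχχ : ∀ q, χ' (j q) = χ q) (hχA : ∀ a ∈ A, χ' a = 1)
    (hinc1 : ∀ g', χ' (res (inc g')) = 1) (hinc2 : ∀ g, χ' (res g) = 1 → ∃ g', inc g' = g)
    (hc2 : ∀ i, c i * c i = 1)
    {k : Type} [Field k] [Finite k] [CharP k 2] (ρbar : 𝒢 →* GL (Fin 3) k)
    (hρo : IsOpen (ρbar.ker : Set 𝒢))
    (hρs : ∀ g, res g ∈ j.range → ∃ a : k,
      (ρbar g : Matrix (Fin 3) (Fin 3) k) = a • (1 : Matrix (Fin 3) (Fin 3) k))
    (hirr : AbsIrred (ρbar.comp inc))
    (R : CNL 2 k) (ρu : 𝒢' →* GL (Fin 3) R.A) (hu : IsUniversal (ρbar.comp inc) R ρu) :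
    ((4 * (Fintype.card V * 2 ^ m) + 1 : ℕ) : WithBot ℕ∞) ≤
      ringKrullDim (R.A ⧸ Ideal.span {((2 : ℕ) : R.A)}) := by
  classical
  have hk2 : (2 : k) = 0 := by exact_mod_cast CharP.cast_eq_zero k 2
  -- the group U
  let U : Subgroup G := χ'.ker
  let j₀ : χ.ker →* U :=
    { toFun := fun q => ⟨j q, by show χ' (j q) = 1; rw [hχχ]; exact q.2⟩
      map_one' := Subtype.ext (by simp)
      map_mul' := fun x y => Subtype.ext (by simp) }
  have hj₀v : ∀ q, ((j₀ q : U) : G) = j q := fun q => rfl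
  have hj₀ : Function.Injective j₀ := by
    intro x y h
    apply Subtype.ext
    apply hj
    rw [← hj₀v, ← hj₀v, h]
  have hj₀c : Continuous j₀ := Continuous.subtype_mk (hjc.comp continuous_subtype_val) _
  have hj₀o : IsOpenMap j₀ := by
    intro s hs
    have h1 : IsOpen ((Subtype.val : χ.ker → P) '' s) := hχo.isOpenMap_subtype_val s hs
    have h2 := hjo _ h1
    have h3 : j₀ '' s = (Subtype.val : U → G) ⁻¹' (j '' ((Subtype.val : χ.ker → P) '' s)) := by
      ext x
      constructor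
      · rintro ⟨y, hy, rfl⟩
        exact ⟨y, ⟨y, hy, rfl⟩, rfl⟩
      · rintro ⟨_, ⟨y, hy, rfl⟩, h⟩
        exact ⟨y, hy, Subtype.ext h⟩
    rw [h3]
    exact h2.preimage continuous_subtype_val
  have hj₀r : ∀ x : U, x ∈ j₀.range ↔ (x : G) ∈ j.range := by
    intro x
    constructor
    · rintro ⟨y, rfl⟩
      exact ⟨y, rfl⟩
    · rintro ⟨q, hq⟩
      have h1 : χ q = 1 := by
        rw [← hχχ, hq]
        exact x.2
      exact ⟨⟨q, h1⟩, Subtype.ext hq⟩
  have hj₀n : j₀.range.Normal := by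
    constructor
    intro x hx g
    rw [hj₀r] at hx ⊢
    exact hjn.conj_mem _ hx _
  let res₀ : 𝒢' →* U :=
    { toFun := fun g => ⟨res (inc g), hinc1 g⟩
      map_one' := Subtype.ext (by simp)
      map_mul' := fun x y => Subtype.ext (by simp) }
  have hres₀v : ∀ g, ((res₀ g : U) : G) = res (inc g) := fun g => rfl
  have hres₀c : Continuous res₀ := Continuous.subtype_mk (hres.comp hinc) _
  have hres₀s : Function.Surjective res₀ := by
    intro x
    obtain ⟨g, hg⟩ := hsurj x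
    obtain ⟨g', hg'⟩ := hinc2 g (by rw [hg]; exact x.2)
    exact ⟨g', Subtype.ext (by rw [hres₀v, hg', hg])⟩
  let A₀ : Subgroup U := A.subgroupOf U
  have hA₀ : A₀ ⊓ j₀.range = ⊥ := by
    rw [eq_bot_iff]
    rintro x ⟨hx1, hx2⟩
    rw [Subgroup.mem_bot]
    apply Subtype.ext
    have h1 : (x : G) ∈ A ⊓ j.range := ⟨hx1, (hj₀r x).1 hx2⟩
    rw [hA, Subgroup.mem_bot] at h1
    exact h1
  have hA₀' : ∀ g : U, ∃ a ∈ A₀, ∃ q ∈ j₀.range, g = q * a := by
    intro g
    obtain ⟨b, hb, x, ⟨q, rfl⟩, h⟩ := hA' g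
    have hbU : b ∈ U := hχA b hb
    have hq : χ q = 1 := by
      have h1 : χ' (g : G) = 1 := g.2
      rw [h, map_mul, hχA b hb, mul_one, hχχ] at h1
      exact h1
    exact ⟨⟨b, hbU⟩, hb, j₀ ⟨q, hq⟩, ⟨_, rfl⟩, Subtype.ext h⟩
  -- the generators
  have hχc' : ∀ (i : ι) (r : Fin (2 ^ m)), σ ^ (r : ℕ) * c i * (σ ^ (r : ℕ))⁻¹ ∈ χ.ker := by
    intro i r
    rw [MonoidHom.mem_ker, map_mul, map_mul, map_inv, hχc, mul_one, mul_inv_cancel]
  have hχσ' : σ ^ (2 ^ m) ∈ χ.ker := by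
    rw [MonoidHom.mem_ker, map_pow, hχσ, ← ofAdd_nsmul]
    simp
  let c₀ : ι × Fin (2 ^ m) → χ.ker := fun x => ⟨_, hχc' x.1 x.2⟩
  let σ₀ : χ.ker := ⟨_, hχσ'⟩
  have hConj : Conj c σ m χ.ker c₀ σ₀ := ⟨fun i r => rfl, rfl⟩
  have hT₀ : TopGen c₀ σ₀ := hSUBT P ι c σ hT m χ hχo hχc hχσ c₀ σ₀ hConj
  have hAs₀ : Assign c₀ σ₀ := hSUBA P ι c σ hT hAs m χ hχo hχc hχσ c₀ σ₀ hConj
  let π₀ : U → ι × Fin (2 ^ m) → ι × Fin (2 ^ m) := fun b x => (π b x.1, x.2)
  have hσpow : ∀ b ∈ A, ∀ r : ℕ, b * j (σ ^ r) * b⁻¹ = j (σ ^ r) := by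
    intro b hb r
    rw [map_pow, ← conj_pow, hσ b hb]
  have hπ₀ : ∀ b ∈ A₀, ∀ x, b * j₀ (c₀ x) * b⁻¹ = j₀ (c₀ (π₀ b x)) := by
    intro b hb x
    apply Subtype.ext
    show (b : G) * j (σ ^ (x.2 : ℕ) * c x.1 * (σ ^ (x.2 : ℕ))⁻¹) * (b : G)⁻¹ =
      j (σ ^ (x.2 : ℕ) * c (π b x.1) * (σ ^ (x.2 : ℕ))⁻¹)
    rw [map_mul, map_mul, map_mul, map_mul, map_inv, ← hπ b hb x.1]
    have h1 := hσpow b hb x.2
    calc (b : G) * (j (σ ^ (x.2 : ℕ)) * j (c x.1) * (j (σ ^ (x.2 : ℕ)))⁻¹) * (b : G)⁻¹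
        = ((b : G) * j (σ ^ (x.2 : ℕ)) * (b : G)⁻¹) * ((b : G) * j (c x.1) * (b : G)⁻¹) *
          ((b : G) * j (σ ^ (x.2 : ℕ)) * (b : G)⁻¹)⁻¹ := by group
      _ = _ := by rw [h1]
  have hσ₀ : ∀ b ∈ A₀, b * j₀ σ₀ * b⁻¹ = j₀ σ₀ := by
    intro b hb
    apply Subtype.ext
    exact hσpow b hb _
  -- the ring
  let W : Type := V × Fin (2 ^ m)
  let τT : Type := Option (W × Fin 4)
  obtain ⟨T, e, he1, he2⟩ := hPS k τT
  let X : τT → T.A := fun i => e.symm (MvPowerSeries.X i)
  have heX : ∀ i, e (X i) = MvPowerSeries.X i := fun i => e.apply_symm_apply _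
  have hrX : ∀ i, T.res (X i) = 0 := by
    intro i
    rw [he1, heX, MvPowerSeries.constantCoeff_X]
  let C : k →+* T.A := (e.symm : MvPowerSeries τT k →+* T.A).comp MvPowerSeries.C
  have heC : ∀ x, e (C x) = MvPowerSeries.C x := fun x => e.apply_symm_apply _
  have hrC : ∀ x, T.res (C x) = x := by
    intro x
    rw [he1, heC, MvPowerSeries.constantCoeff_C]
  have hT2 : (2 : T.A) = 0 := by
    have : C (2 : k) = 2 := map_ofNat C 2
    rw [← this, hk2, map_zero]
  let N : W → GL (Fin 3) T.A := fun w =>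
    XX hT2 (X (some (w, 3))) (X (some (w, 0))) (X (some (w, 1))) (X (some (w, 2)))
  choose lf hlf using hsurj
  let RR : G → GL (Fin 3) T.A := fun b => Matrix.GeneralLinearGroup.map C (ρbar (lf b))
  have hRmul : ∀ (g : 𝒢) (b : G) (Y : GL (Fin 3) T.A),
      RR (res g * b) * Y * (RR (res g * b))⁻¹ = Matrix.GeneralLinearGroup.map C (ρbar g) *
        (RR b * Y * (RR b)⁻¹) * (Matrix.GeneralLinearGroup.map C (ρbar g))⁻¹ := by
    intro g b Y
    obtain ⟨s, hs⟩ := hρs (lf (res g * b) * (g * lf b)⁻¹) (by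
      rw [map_mul, map_inv, map_mul, hlf, hlf, mul_inv_cancel]
      exact Subgroup.one_mem _)
    have := conj_scalar' C (ρbar (lf (res g * b))) (ρbar (g * lf b)) s (by
      rw [← map_inv, ← map_mul]; exact hs) Y
    show Matrix.GeneralLinearGroup.map C (ρbar (lf (res g * b))) * Y *
      (Matrix.GeneralLinearGroup.map C (ρbar (lf (res g * b))))⁻¹ = _
    rw [this]
    show _ = Matrix.GeneralLinearGroup.map C (ρbar g) *
      (Matrix.GeneralLinearGroup.map C (ρbar (lf b)) * Y *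
        (Matrix.GeneralLinearGroup.map C (ρbar (lf b)))⁻¹) *
        (Matrix.GeneralLinearGroup.map C (ρbar g))⁻¹
    rw [map_mul, map_mul]
    group
  have hR1 : ∀ Y : GL (Fin 3) T.A, RR 1 * Y * (RR 1)⁻¹ = Y := by
    intro Y
    obtain ⟨s, hs⟩ := hρs (lf 1) (by rw [hlf]; exact Subgroup.one_mem _)
    have := conj_scalar' C (ρbar (lf 1)) 1 s (by rw [inv_one, mul_one]; exact hs) Y
    show Matrix.GeneralLinearGroup.map C (ρbar (lf 1)) * Y *
      (Matrix.GeneralLinearGroup.map C (ρbar (lf 1)))⁻¹ = Y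
    rw [this, map_one, one_mul, inv_one, mul_one]
  let t : ι × Fin (2 ^ m) → GL (Fin 3) T.A := fun x =>
    RR (a x.1) * N (v x.1, x.2) * (RR (a x.1))⁻¹
  -- the scalar matrix 1 + z
  have hzu : IsUnit (1 + X none) := by
    rw [MZEX.isUnit_iff]
    rw [map_add, map_one, hrX, add_zero]
    exact one_ne_zero
  let z : T.Aˣ := hzu.unit
  have hz : (z : T.A) = 1 + X none := rfl
  let u : GL (Fin 3) T.A := Units.map (Matrix.scalar (Fin 3)).toMonoidHom z
  have hu1 : ((u : GL (Fin 3) T.A) : Matrix (Fin 3) (Fin 3) T.A) =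
      (1 + X none) • (1 : Matrix (Fin 3) (Fin 3) T.A) := by
    show Matrix.scalar (Fin 3) (z : T.A) = _
    rw [hz, Matrix.scalar_apply, Matrix.smul_one_eq_diagonal]
  have hucomm : ∀ Y : GL (Fin 3) T.A, Y * u * Y⁻¹ = u := by
    intro Y
    have : Y * u = u * Y := by
      apply Units.ext
      rw [Units.val_mul, Units.val_mul, hu1, Matrix.mul_smul, Matrix.smul_mul, mul_one, one_mul]
    rw [this, mul_inv_cancel_right]
  have hured : Matrix.GeneralLinearGroup.map T.res u = 1 := by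
    apply Units.ext
    rw [map_coe, hu1]
    ext i j
    by_cases hij : i = j
    · subst hij; simp [hrX]
    · simp [Matrix.one_apply_ne hij]
  have htsq : ∀ x, t x * t x = 1 := by
    intro x
    calc RR (a x.1) * N (v x.1, x.2) * (RR (a x.1))⁻¹ *
          (RR (a x.1) * N (v x.1, x.2) * (RR (a x.1))⁻¹)
        = RR (a x.1) * (N (v x.1, x.2) * N (v x.1, x.2)) * (RR (a x.1))⁻¹ := by group
      _ = 1 := by rw [XX_sq, mul_one, mul_inv_cancel]
  have htred : ∀ x, Matrix.GeneralLinearGroup.map T.res (t x) = 1 := by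
    intro x
    show Matrix.GeneralLinearGroup.map T.res (RR (a x.1) * N (v x.1, x.2) * (RR (a x.1))⁻¹) = 1
    rw [map_mul, map_mul, XX_red hT2 _ _ _ _ T.res (hrX _), mul_one, map_inv, mul_inv_cancel]
  haveI : CompactSpace χ.ker :=
    isCompact_iff_compactSpace.mp (Subgroup.isClosed_of_isOpen χ.ker hχo).isCompact
  obtain ⟨ψ, hψ1, hψo, hψc, hψσ⟩ := hLIM χ.ker (ι × Fin (2 ^ m)) c₀ σ₀ hT₀ hAs₀ k T.A T.res
    T.res_surj hT2 3 t u htsq htred hured
  -- the representation
  let ρbar' : 𝒢' →* GL (Fin 3) k := ρbar.comp inc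
  have hρo' : IsOpen (ρbar'.ker : Set 𝒢') := hρo.preimage hinc
  have hρs' : ∀ g, res₀ g ∈ j₀.range → ∃ a : k,
      (ρbar' g : Matrix (Fin 3) (Fin 3) k) = a • (1 : Matrix (Fin 3) (Fin 3) k) := by
    intro g hg
    exact hρs (inc g) ((hj₀r _).1 hg)
  have htπ : ∀ g : 𝒢', res₀ g ∈ A₀ → ∀ x, t (π₀ (res₀ g) x) =
      Matrix.GeneralLinearGroup.map C (ρbar' g) * t x *
        (Matrix.GeneralLinearGroup.map C (ρbar' g))⁻¹ := by
    intro g hg x
    show RR (a (π (res (inc g)) x.1)) * N (v (π (res (inc g)) x.1), x.2) *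
      (RR (a (π (res (inc g)) x.1)))⁻¹ = _
    rw [hπv, hπa (res (inc g)) hg, hRmul]
    rfl
  obtain ⟨ρ, hρ1, hρ2, hρ3⟩ := hEXT χ.ker U 𝒢' j₀ hj₀ hj₀o hj₀c hj₀n res₀ hres₀c hres₀s A₀ hA₀ hA₀'
    (ι × Fin (2 ^ m)) c₀ σ₀ hT₀ π₀ hπ₀ hσ₀ k T.A T.res C hrC 3 ρbar' hρo' hρs' t u htπ
    (fun g _ => (hucomm _).symm) ψ hψ1 hψo hψc hψσ
  -- the classifying map
  obtain ⟨f, ⟨hf1, hf2⟩, -⟩ := hu.2 T ρ ⟨hρ1, hρ2⟩
  have htr := trace_univ R T ρu ρ f hf2
  let F : R.A →+* MvPowerSeries τT k := (e : T.A →+* MvPowerSeries τT k).comp (f : R.A →+* T.A)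
  let B : Subring (T.A) := (f : R.A →+* T.A).range
  have hBtr : ∀ g, (ρ g : Matrix (Fin 3) (Fin 3) T.A).trace ∈ B := fun g => ⟨_, htr g⟩
  have hBC : ∀ x : k, C x ∈ B := by
    intro x
    refine ⟨algebraMap (WittVector 2 k) R.A (WittVector.teichmuller 2 x), ?_⟩
    apply e.injective
    show e (f (algebraMap (WittVector 2 k) R.A (WittVector.teichmuller 2 x))) = e (C x)
    rw [f.commutes, he2, heC, WittVector.teichmuller_coeff_zero]
  -- scalars are nonzero
  have hsc0 : ∀ (M : GL (Fin 3) k) (s : k),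
      (M : Matrix (Fin 3) (Fin 3) k) = s • (1 : Matrix (Fin 3) (Fin 3) k) → s ≠ 0 := by
    rintro M s hM rfl
    rw [zero_smul] at hM
    have := M.isUnit
    rw [hM] at this
    exact not_isUnit_zero this
  have hmapsc : ∀ (M : GL (Fin 3) k) (s : k),
      (M : Matrix (Fin 3) (Fin 3) k) = s • (1 : Matrix (Fin 3) (Fin 3) k) →
      ((Matrix.GeneralLinearGroup.map C M : GL (Fin 3) T.A) : Matrix (Fin 3) (Fin 3) T.A) =
        C s • (1 : Matrix (Fin 3) (Fin 3) T.A) := by
    intro M s hM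
    rw [map_coe, hM]
    ext i j
    by_cases hij : i = j
    · subst hij; simp
    · simp [Matrix.one_apply_ne hij]
  have hBinv : ∀ (s : k) (y : T.A), s ≠ 0 → C s * y ∈ B → y ∈ B := by
    intro s y hs h
    have h1 := B.mul_mem (hBC s⁻¹) h
    rwa [← mul_assoc, ← map_mul, inv_mul_cancel₀ hs, map_one, one_mul] at h1
  -- the variable z
  have hz1 : X none ∈ B := by
    obtain ⟨g, hg⟩ := hres₀s (j₀ σ₀)
    have h1 := hρ3 g σ₀ 1 A₀.one_mem (by rw [mul_one, hg])
    obtain ⟨s, hs⟩ := hρs' g (by rw [hg]; exact ⟨_, rfl⟩)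
    have h2 : (ρ g : Matrix (Fin 3) (Fin 3) T.A).trace = C s * (1 + X none) := by
      rw [h1, hψσ, Units.val_mul, hu1, hmapsc _ s hs, Matrix.smul_mul, one_mul, smul_smul,
        Matrix.trace_smul, Matrix.trace_one, Fintype.card_fin, smul_eq_mul]
      push_cast
      linear_combination ((1 + X none) * C s) * hT2
    have h3 : (1 + X none) ∈ B := hBinv s _ (hsc0 _ _ hs) (by rw [← h2]; exact hBtr g)
    have h4 := B.sub_mem h3 B.one_mem
    rwa [add_sub_cancel_left] at h4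
  -- the entries of N w
  have hent : ∀ (w : W) (i l : Fin 3), NN (X (some (w, 3))) (X (some (w, 0))) (X (some (w, 1)))
      (X (some (w, 2))) i l ∈ B := by
    intro w
    obtain ⟨τ, hτv, hτa⟩ := ha1 w.1
    set n : Matrix (Fin 3) (Fin 3) T.A := NN (X (some (w, 3))) (X (some (w, 0)))
      (X (some (w, 1))) (X (some (w, 2))) with hn
    have hNw : ((N w : GL (Fin 3) T.A) : Matrix (Fin 3) (Fin 3) T.A) = 1 + n := rfl
    obtain ⟨ct, hct⟩ := hres₀s (j₀ (c₀ (τ, w.2)))
    obtain ⟨sc, hsc⟩ := hρs' ct (by rw [hct]; exact ⟨_, rfl⟩)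
    have htτ : t (τ, w.2) = N w := by
      show RR (a τ) * N (v τ, w.2) * (RR (a τ))⁻¹ = N w
      rw [hτa, hR1, hτv]
    -- over A₀
    have hA1 : ∀ g : 𝒢', res₀ g ∈ A₀ →
        (((ρbar' g : Matrix (Fin 3) (Fin 3) k).map C) * n).trace ∈ B := by
      intro g hg
      have h1 : res₀ (g * ct) = j₀ (c₀ (π₀ (res₀ g) (τ, w.2))) * res₀ g := by
        rw [map_mul, hct, ← hπ₀ _ hg]
        group
      have h2 := hρ3 _ _ _ hg h1
      rw [hψc, htπ g hg, htτ, map_mul ρbar', map_mul (Matrix.GeneralLinearGroup.map C)] at h2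
      have h3 : Matrix.GeneralLinearGroup.map C (ρbar' g) * N w *
          (Matrix.GeneralLinearGroup.map C (ρbar' g))⁻¹ *
          (Matrix.GeneralLinearGroup.map C (ρbar' g) * Matrix.GeneralLinearGroup.map C (ρbar' ct)) =
          Matrix.GeneralLinearGroup.map C (ρbar' g) * N w *
            Matrix.GeneralLinearGroup.map C (ρbar' ct) := by group
      rw [h3] at h2
      have h4 : (ρ (g * ct) : Matrix (Fin 3) (Fin 3) T.A).trace = C sc *
          ((((ρbar' g : Matrix (Fin 3) (Fin 3) k).map C).trace) +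
            (((ρbar' g : Matrix (Fin 3) (Fin 3) k).map C) * n).trace) := by
        rw [h2, Units.val_mul, Units.val_mul, hNw, hmapsc _ sc hsc, Matrix.mul_smul,
          mul_one, Matrix.trace_smul, map_coe, mul_add, mul_one, Matrix.trace_add, smul_eq_mul]
      have h5 : ((((ρbar' g : Matrix (Fin 3) (Fin 3) k).map C).trace) +
            (((ρbar' g : Matrix (Fin 3) (Fin 3) k).map C) * n).trace) ∈ B :=
        hBinv sc _ (hsc0 _ _ hsc) (by rw [← h4]; exact hBtr _)
      have h6 : ((ρbar' g : Matrix (Fin 3) (Fin 3) k).map C).trace ∈ B := by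
        have : ((ρbar' g : Matrix (Fin 3) (Fin 3) k).map C).trace =
            C ((ρbar' g : Matrix (Fin 3) (Fin 3) k).trace) := by
          rw [Matrix.trace, Matrix.trace, map_sum]
          rfl
        rw [this]
        exact hBC _
      have h7 := B.sub_mem h5 h6
      rwa [add_sub_cancel_left] at h7
    -- all matrices
    let S : Submodule k (Matrix (Fin 3) (Fin 3) k) :=
      { carrier := {M | ((M.map C) * n).trace ∈ B}
        add_mem' := by
          intro M M' h h'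
          show (((M + M').map C) * n).trace ∈ B
          have : (M + M').map C = M.map C + M'.map C := by
            ext i l
            simp
          rw [this, add_mul, Matrix.trace_add]
          exact B.add_mem h h'
        zero_mem' := by
          show (((0 : Matrix (Fin 3) (Fin 3) k).map C) * n).trace ∈ B
          have : (0 : Matrix (Fin 3) (Fin 3) k).map C = 0 := by
            ext i l
            simp
          rw [this, zero_mul, Matrix.trace_zero]
          exact B.zero_mem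
        smul_mem' := by
          intro s M h
          show (((s • M).map C) * n).trace ∈ B
          have : (s • M).map C = C s • M.map C := by
            ext i l
            simp
          rw [this, Matrix.smul_mul, Matrix.trace_smul, smul_eq_mul]
          exact B.mul_mem (hBC s) h }
    have hS : S = ⊤ := by
      rw [eq_top_iff, ← hBUR k 𝒢' 3 ρbar' (by norm_num) hirr, Submodule.span_le]
      rintro _ ⟨h, rfl⟩
      obtain ⟨b, hb, x, hx, hbx⟩ := hA₀' (res₀ h)
      obtain ⟨g, hg⟩ := hres₀s b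
      obtain ⟨s, hs⟩ := hρs' (h * g⁻¹) (by
        rw [map_mul, map_inv, hg, hbx, mul_inv_cancel_right]
        exact hx)
      have h1 : ((ρbar' h : GL (Fin 3) k) : Matrix (Fin 3) (Fin 3) k) =
          s • (ρbar' g : Matrix (Fin 3) (Fin 3) k) := by
        have : ρbar' h = ρbar' (h * g⁻¹) * ρbar' g := by rw [← map_mul]; congr 1; group
        rw [this, Units.val_mul, hs, Matrix.smul_mul, one_mul]
      show (ρbar' h : Matrix (Fin 3) (Fin 3) k) ∈ S
      rw [h1]
      exact S.smul_mem s (hA1 g (by rw [hg]; exact hb))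
    intro i l
    have h1 : Matrix.single l i (1 : k) ∈ S := by rw [hS]; trivial
    have h2 : (((Matrix.single l i (1 : k)).map C) * n).trace = n i l := by
      have : (Matrix.single l i (1 : k)).map C = Matrix.single l i (1 : T.A) := by
        ext x y
        simp only [Matrix.map_apply, Matrix.single_apply]
        split_ifs <;> simp
      rw [this]
      simp [Matrix.trace_single_mul]
    have h3 : (((Matrix.single l i (1 : k)).map C) * n).trace ∈ B := h1
    rwa [h2] at h3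
  -- the chain
  let s : τT → τT := fun i => match i with
    | none => none
    | some (w, _) => some (w, 3)
  have hcard : Fintype.card τT = 4 * (Fintype.card V * 2 ^ m) + 1 := by
    show Fintype.card (Option ((V × Fin (2 ^ m)) × Fin 4)) = _
    rw [Fintype.card_option, Fintype.card_prod, Fintype.card_prod, Fintype.card_fin,
      Fintype.card_fin]
    ring
  have hF : ∀ y ∈ B, ∃ x, F x = e y := by
    rintro y ⟨x, hx⟩
    exact ⟨x, by rw [← hx]; rfl⟩
  have key := hCHAIN k hk2 τT s R.A F (by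
      rintro (_ | ⟨w, i⟩) <;> rfl) (by
      rintro (_ | ⟨w, i⟩) hi
      · obtain ⟨x, hx⟩ := hF _ hz1
        exact ⟨x, by rw [hx, heX]⟩
      · have hi' : i = 3 := by
          have : (some (w, (3 : Fin 4)) : τT) = some (w, i) := hi
          simp only [Option.some.injEq, Prod.mk.injEq, true_and] at this
          exact this.symm
        subst hi'
        have h1 := hent w 0 1
        obtain ⟨x, hx⟩ := hF _ h1
        refine ⟨x, ?_⟩
        rw [hx, ← heX]
        rfl) (by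
      rintro (_ | ⟨w, i⟩) hi
      · exact absurd rfl hi
      · have h3 : i ≠ 3 := by
          rintro rfl
          exact hi rfl
        have hs3 : s (some (w, i)) = some (w, 3) := rfl
        rw [hs3]
        have hcases : i = 0 ∨ i = 1 ∨ i = 2 := by
          fin_cases i <;> simp_all
        rcases hcases with rfl | rfl | rfl
        · obtain ⟨x, hx⟩ := hF _ (hent w 1 1)
          refine ⟨x, ?_⟩
          rw [hx, ← heX, ← heX, ← map_mul]
          congr 1
          show X (some (w, 3)) * X (some (w, 0)) = _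
          ring
        · obtain ⟨x, hx⟩ := hF _ (hent w 2 1)
          refine ⟨x, ?_⟩
          rw [hx, ← heX, ← heX, ← map_mul]
          congr 1
          show X (some (w, 3)) * X (some (w, 1)) = _
          ring
        · obtain ⟨x, hx⟩ := hF _ (hent w 0 2)
          refine ⟨x, ?_⟩
          rw [hx, ← heX, ← heX, ← map_mul]
          congr 1
          show X (some (w, 3)) * X (some (w, 2)) = _
          ring)
  rw [hcard] at key
  exact key

end Pool.Agent.Helper39.MZU
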