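import Pool.Agent.Helper39.MZU.Base

/-! Group theory for the assembly: the character `χ` and its extension. -/

set_option autoImplicit false

namespace Pool.Agent.Helper39.MZU

open MZ

/-- two homomorphisms with open kernels which agree on the generators agree -/
lemma hom_eq_of_topGen {P : Type} [Group P] [TopologicalSpace P] [IsTopologicalGroup P] {ι : Type}
    {c : ι → P} {σ : P} (hT : TopGen c σ) {H : Type} [Group H] (f g : P →* H)
    (hf : IsOpen (f.ker : Set P)) (hg : IsOpen (g.ker : Set P)) (hc : ∀ i, f (c i) = g (c i))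
    (hσ : f σ = g σ) : f = g := by
  have h1 : f.eqLocus g = ⊤ := by
    apply hT
    · apply Subgroup.isOpen_mono (H₁ := f.ker ⊓ g.ker)
      · rintro x ⟨hx1, hx2⟩
        show f x = g x
        rw [MonoidHom.mem_ker.mp hx1, MonoidHom.mem_ker.mp hx2]
      · exact hf.inter hg
    · exact hc
    · exact hσ
  ext q
  have h2 : q ∈ f.eqLocus g := by rw [h1]; exact Subgroup.mem_top q
  exact h2

section

variable {P G : Type} [Group P] [TopologicalSpace P] [IsTopologicalGroup P]
  [Group G] [TopologicalSpace G] [IsTopologicalGroup G]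

/-- conjugation by an element of the big group -/
lemma exists_conj (j : P →* G) (hj : Function.Injective j) (hjo : IsOpenMap j)
    (hjc : Continuous j) (hjn : j.range.Normal) (b : G) :
    ∃ cb : P →* P, Continuous cb ∧ ∀ q, j (cb q) = b * j q * b⁻¹ := by
  have hconjmem : ∀ (q : P), b * j q * b⁻¹ ∈ j.range := fun q => hjn.conj_mem _ ⟨q, rfl⟩ b
  let cb : P → P := fun q => (hconjmem q).choose
  have hcb : ∀ q, j (cb q) = b * j q * b⁻¹ := fun q => (hconjmem q).choose_spec
  let cbH : P →* P := MonoidHom.mk' cb (fun x y => by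
    apply hj
    rw [map_mul, hcb, hcb, hcb, map_mul]
    group)
  refine ⟨cbH, ?_, hcb⟩
  have hemb : Topology.IsOpenEmbedding j :=
    Topology.IsOpenEmbedding.of_continuous_injective_isOpenMap hjc hj hjo
  rw [hemb.isInducing.continuous_iff]
  have : (j ∘ cbH) = fun q => b * j q * b⁻¹ := by
    funext q
    exact hcb q
  rw [this]
  fun_prop

/-- the characters `χ` and `χ'` -/
theorem exists_chi (j : P →* G) (hj : Function.Injective j) (hjo : IsOpenMap j)
    (hjc : Continuous j) (hjn : j.range.Normal)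
    (A : Subgroup G) (hA : A ⊓ j.range = ⊥) (hA' : ∀ g : G, ∃ a ∈ A, ∃ q ∈ j.range, g = q * a)
    {ι : Type} (c : ι → P) (σ : P) (hT : TopGen c σ) (hAs : Assign c σ) (π : G → ι → ι)
    (hπ : ∀ b ∈ A, ∀ i, b * j (c i) * b⁻¹ = j (c (π b i))) (hσ : ∀ b ∈ A, b * j σ * b⁻¹ = j σ)
    (m : ℕ) :
    ∃ (χ : P →* Multiplicative (ZMod (2 ^ m))) (χ' : G →* Multiplicative (ZMod (2 ^ m))),
      IsOpen (χ.ker : Set P) ∧ (∀ i, χ (c i) = 1) ∧ χ σ = Multiplicative.ofAdd 1 ∧
      (∀ q, χ' (j q) = χ q) ∧ (∀ a ∈ A, χ' a = 1) ∧ IsOpen (χ'.ker : Set G) := by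
  haveI : NeZero (2 ^ m) := ⟨by positivity⟩
  haveI : Finite (Multiplicative (ZMod (2 ^ m))) := inferInstance
  obtain ⟨χ, hχo, hχc, hχσ⟩ := hAs (Multiplicative (ZMod (2 ^ m)))
    ⟨m, by rw [Nat.card_congr Multiplicative.toAdd, Nat.card_zmod]⟩ (fun _ => 1)
    (Multiplicative.ofAdd 1) (fun _ => one_mul _)
  -- invariance
  have hinv : ∀ b ∈ A, ∀ q q' : P, j q' = b * j q * b⁻¹ → χ q' = χ q := by
    intro b hb q q' hq
    obtain ⟨cb, hcbc, hcb⟩ := exists_conj j hj hjo hjc hjn b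
    have h1 : χ.comp cb = χ := by
      refine hom_eq_of_topGen hT _ _ (hχo.preimage hcbc) hχo ?_ ?_
      · intro i
        have : cb (c i) = c (π b i) := hj (by rw [hcb, hπ b hb i])
        rw [MonoidHom.comp_apply, this, hχc, hχc]
      · have : cb σ = σ := hj (by rw [hcb, hσ b hb])
        rw [MonoidHom.comp_apply, this]
    have h2 : q' = cb q := hj (by rw [hcb, hq])
    rw [h2]
    exact DFunLike.congr_fun h1 q
  have hdec : ∀ g : G, ∃ q : P, ∃ a ∈ A, g = j q * a := by
    intro g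
    obtain ⟨a, ha, x, ⟨q, rfl⟩, h⟩ := hA' g
    exact ⟨q, a, ha, h⟩
  choose Q α hα hQ using hdec
  have huniq : ∀ (q q' : P) (a a' : G), a ∈ A → a' ∈ A → j q * a = j q' * a' → q = q' ∧ a = a' := by
    intro q q' a a' ha ha' h
    have h1 : a * a'⁻¹ ∈ A ⊓ j.range := by
      refine ⟨A.mul_mem ha (A.inv_mem ha'), q⁻¹ * q', ?_⟩
      rw [map_mul, map_inv, inv_mul_eq_iff_eq_mul, ← mul_assoc, h, mul_inv_cancel_right]
    rw [hA, Subgroup.mem_bot, mul_inv_eq_one] at h1
    subst h1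
    exact ⟨hj (mul_right_cancel h), rfl⟩
  have hval : ∀ (q : P) (a : G), a ∈ A → χ (Q (j q * a)) = χ q := by
    intro q a ha
    obtain ⟨h1, -⟩ := huniq _ _ _ _ (hα (j q * a)) ha (hQ (j q * a)).symm
    rw [h1]
  let χ' : G →* Multiplicative (ZMod (2 ^ m)) := MonoidHom.mk' (fun g => χ (Q g)) (by
    intro g g'
    obtain ⟨q₁, hq₁⟩ : (α g) * j (Q g') * (α g)⁻¹ ∈ j.range := hjn.conj_mem _ ⟨_, rfl⟩ _
    have e1 : g * g' = j (Q g * q₁) * (α g * α g') := by
      rw [map_mul, hq₁]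
      nth_rewrite 1 [hQ g]
      nth_rewrite 1 [hQ g']
      group
    show χ (Q (g * g')) = χ (Q g) * χ (Q g')
    rw [e1, hval _ _ (A.mul_mem (hα _) (hα _)), map_mul, hinv (α g) (hα g) (Q g') q₁ hq₁])
  refine ⟨χ, χ', hχo, hχc, hχσ, ?_, ?_, ?_⟩
  · intro q
    have := hval q 1 A.one_mem
    rw [mul_one] at this
    exact this
  · intro a ha
    have := hval 1 a ha
    rw [map_one, one_mul, map_one] at this
    exact this
  · refine Subgroup.isOpen_mono (H₁ := χ.ker.map j) ?_ ?_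
    · rintro _ ⟨q, hq, rfl⟩
      have h1 := hval q 1 A.one_mem
      rw [mul_one] at h1
      show χ (Q (j q)) = 1
      rw [h1]
      exact hq
    · rw [Subgroup.coe_map]
      exact hjo _ hχo

end

end Pool.Agent.Helper39.MZU
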