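import Pool.Agent.Helper39.MZU.Base

/-! From finite 2-groups to `GL_n(T)` (copy of the library's `Lim`). -/

set_option autoImplicit false
set_option linter.unusedVariables false

noncomputable section

namespace Pool.Agent.Helper39.MZU.Lim

open IsLocalRing

section basic

variable {T : Type} [CommRing T] [IsLocalRing T]

/-- truncation -/
def RR (T : Type) [CommRing T] [IsLocalRing T] (m : ℕ) : Type := T ⧸ (maximalIdeal T) ^ m

instance (m : ℕ) : CommRing (RR T m) := inferInstanceAs (CommRing (T ⧸ (maximalIdeal T) ^ m))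

/-- the quotient map -/
def q (m : ℕ) : T →+* RR T m := Ideal.Quotient.mk _

lemma q_surj (m : ℕ) : Function.Surjective (q m : T →+* RR T m) :=
  Ideal.Quotient.mk_surjective

lemma q_eq {m : ℕ} {x y : T} : q m x = q m y ↔ x - y ∈ maximalIdeal T ^ m :=
  Ideal.Quotient.eq (I := (maximalIdeal T) ^ m)

lemma ext_q [IsAdicComplete (maximalIdeal T) T] {x y : T} (h : ∀ m, q m x = q m y) : x = y := by
  rw [← sub_eq_zero]
  apply IsHausdorff.haus (I := maximalIdeal T) (M := T) inferInstance
  intro d
  rw [SModEq.zero]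
  have := q_eq.mp (h d)
  simpa using this

lemma finite_RR [IsNoetherianRing T] {k : Type} [Field k] [Finite k] (r : T →+* k)
    (hr : Function.Surjective r) (m : ℕ) : Finite (RR T m) := by
  have hker : RingHom.ker r = maximalIdeal T :=
    IsLocalRing.eq_maximalIdeal (RingHom.ker_isMaximal_of_surjective r hr)
  haveI : Finite (T ⧸ maximalIdeal T) := by
    rw [← hker]
    exact Finite.of_equiv k (RingHom.quotientKerEquivOfSurjective hr).symm.toEquiv
  exact Ideal.finite_quotient_pow (IsNoetherian.noetherian (maximalIdeal T)) m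

/-- further truncation -/
def pi {m m' : ℕ} (h : m ≤ m') : RR T m' →+* RR T m :=
  Ideal.Quotient.factor (Ideal.pow_le_pow_right h)

lemma pi_q {m m' : ℕ} (h : m ≤ m') (x : T) : pi h (q m' x) = q m x := rfl

/-- limits of compatible systems -/
lemma exists_lim [IsAdicComplete (maximalIdeal T) T] (x : (m : ℕ) → RR T m)
    (hx : ∀ m m' (h : m ≤ m'), pi h (x m') = x m) : ∃ y : T, ∀ m, q m y = x m := by
  choose y hy using fun m => q_surj (T := T) m (x m)
  obtain ⟨L, hL⟩ := IsPrecomplete.prec (I := maximalIdeal T) (M := T) inferInstance (f := y) (by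
    intro m m' h
    rw [SModEq.sub_mem]
    have h1 : q m (y m) = q m (y m') := by
      rw [hy, ← pi_q h, hy, hx]
    have := q_eq.mp h1
    simpa using this)
  refine ⟨L, fun m => ?_⟩
  have h1 := hL m
  rw [SModEq.sub_mem] at h1
  rw [← hy m]
  refine (q_eq.mpr ?_).symm
  simpa using h1

end basic

section group

variable {T : Type} [CommRing T] [IsLocalRing T] {k : Type} [Field k] (n : ℕ) (r : T →+* k)

/-- the congruence subgroup -/
def Gam (n : ℕ) (r : T →+* k) : Subgroup (GL (Fin n) T) :=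
  (Matrix.GeneralLinearGroup.map (n := Fin n) r).ker

/-- its image modulo `m_T ^ m` -/
def HH (n : ℕ) (r : T →+* k) (m : ℕ) : Subgroup (GL (Fin n) (RR T m)) :=
  (Gam n r).map (Matrix.GeneralLinearGroup.map (n := Fin n) (q m))

lemma two_eq (h2 : (2 : T) = 0) : (2 : Matrix (Fin n) (Fin n) T) = 0 := by
  ext1 a b
  rw [← one_add_one_eq_two, Matrix.add_apply, ← two_mul, h2, zero_mul]
  rfl

lemma one_add_pow (h2 : (2 : T) = 0) (W : Matrix (Fin n) (Fin n) T) (e : ℕ) :
    (1 + W) ^ (2 ^ e) = 1 + W ^ (2 ^ e) := by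
  induction e with
  | zero => simp
  | succ e ih =>
    rw [pow_succ 2 e, pow_mul, ih, pow_mul]
    have h : (1 + W ^ 2 ^ e) ^ 2 = 1 + (W ^ 2 ^ e) ^ 2 + 2 * W ^ 2 ^ e := by noncomm_ring
    rw [h, two_eq n h2, zero_mul, add_zero]

lemma mem_Gam (hr : Function.Surjective r) {g : GL (Fin n) T} :
    g ∈ Gam n r ↔ ∀ a b, ((g : Matrix (Fin n) (Fin n) T) - 1) a b ∈ maximalIdeal T := by
  have hker : RingHom.ker r = maximalIdeal T :=
    IsLocalRing.eq_maximalIdeal (RingHom.ker_isMaximal_of_surjective r hr)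
  unfold Gam
  rw [MonoidHom.mem_ker]
  constructor
  · intro h a b
    have h1 := congrArg (fun M : GL (Fin n) k => (M : Matrix (Fin n) (Fin n) k) a b) h
    simp only [Matrix.GeneralLinearGroup.map_apply] at h1
    rw [← hker, RingHom.mem_ker, Matrix.sub_apply, map_sub, h1]
    by_cases hab : a = b
    · subst hab; simp
    · simp [hab]
  · intro h
    ext a b
    have h1 := h a b
    rw [← hker, RingHom.mem_ker, Matrix.sub_apply, map_sub, sub_eq_zero] at h1
    simp only [Matrix.GeneralLinearGroup.map_apply]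
    rw [h1]
    by_cases hab : a = b
    · subst hab; simp
    · simp [hab]

lemma entries_pow {I : Ideal T} {W : Matrix (Fin n) (Fin n) T} (h : ∀ a b, W a b ∈ I) (e : ℕ) :
    ∀ a b, (W ^ e) a b ∈ I ^ e := by
  induction e with
  | zero => intro a b; simp
  | succ e ih =>
    intro a b
    rw [pow_succ W e, Matrix.mul_apply, pow_succ I e]
    exact Ideal.sum_mem _ fun c _ => Ideal.mul_mem_mul (ih a c) (h c b)

lemma pgroup (h2 : (2 : T) = 0) (hr : Function.Surjective r) (m : ℕ) : IsPGroup 2 (HH n r m) := by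
  rintro ⟨h, hh⟩
  obtain ⟨g, hg, rfl⟩ := hh
  refine ⟨m, ?_⟩
  apply Subtype.ext
  show (Matrix.GeneralLinearGroup.map (n := Fin n) (q m) g) ^ (2 ^ m) = 1
  rw [← map_pow]
  have hg' := (mem_Gam n r hr).mp hg
  have h1 : (g : Matrix (Fin n) (Fin n) T) =
      1 + ((g : Matrix (Fin n) (Fin n) T) - 1) := by
    abel
  have h3 : ((g ^ (2 ^ m) : GL (Fin n) T) : Matrix (Fin n) (Fin n) T) =
      1 + ((g : Matrix (Fin n) (Fin n) T) - 1) ^ (2 ^ m) := by
    rw [Units.val_pow_eq_pow_val]
    nth_rewrite 1 [h1]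
    rw [one_add_pow n h2]
  ext a b
  simp only [Matrix.GeneralLinearGroup.map_apply]
  rw [h3]
  have h4 : q m (((1 : Matrix (Fin n) (Fin n) T) +
      (((g : Matrix (Fin n) (Fin n) T) - 1) ^ (2 ^ m) : Matrix (Fin n) (Fin n) T)) a b) =
      q m ((1 : Matrix (Fin n) (Fin n) T) a b) := by
    rw [q_eq, Matrix.add_apply, add_sub_cancel_left]
    exact Ideal.pow_le_pow_right Nat.lt_two_pow_self.le (entries_pow n hg' _ a b)
  rw [h4]
  by_cases hab : a = b
  · subst hab; simp
  · simp [hab]

lemma mem_HH (m : ℕ) {g : GL (Fin n) T} (h : g ∈ Gam n r) :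
    Matrix.GeneralLinearGroup.map (n := Fin n) (q m) g ∈ HH n r m := by
  unfold HH
  rw [Subgroup.mem_map]
  exact ⟨g, h, rfl⟩

/-- the image of an element of the congruence subgroup -/
def toHH (m : ℕ) (g : GL (Fin n) T) (h : g ∈ Gam n r) : HH n r m :=
  ⟨_, mem_HH n r m h⟩

lemma toHH_val (m : ℕ) (g : GL (Fin n) T) (h : g ∈ Gam n r) :
    (toHH n r m g h : GL (Fin n) (RR T m)) =
      Matrix.GeneralLinearGroup.map (n := Fin n) (q m) g := rfl

lemma toHH_sq (m : ℕ) (g : GL (Fin n) T) (h : g ∈ Gam n r) (h2 : g * g = 1) :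
    toHH n r m g h * toHH n r m g h = 1 := by
  apply Subtype.ext
  rw [Subgroup.coe_mul, toHH_val, ← map_mul, h2, map_one]
  rfl

end group

theorem main : S_LIM := by
  intro P _ _ _ _ _ ι c σ hTop hAss k T _ _ _ _ _ _ r hr hT2 n t u ht2 ht1 hu1
  have hfin : ∀ m, Finite (RR T m) := finite_RR r hr
  have htΓ : ∀ i, t i ∈ Gam n r := fun i => MonoidHom.mem_ker.mpr (ht1 i)
  have huΓ : u ∈ Gam n r := MonoidHom.mem_ker.mpr hu1
  -- the maps to the finite levels
  have hex : ∀ m : ℕ, ∃ Ψ : P →* GL (Fin n) (RR T m), IsOpen (Ψ.ker : Set P) ∧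
      (∀ i, Ψ (c i) = Matrix.GeneralLinearGroup.map (q m) (t i)) ∧
      Ψ σ = Matrix.GeneralLinearGroup.map (q m) u ∧ ∀ g, Ψ g ∈ HH n r m := by
    intro m
    have := hfin m
    have hfGL : Finite (GL (Fin n) (RR T m)) := inferInstance
    have hfH : Finite (HH n r m) := inferInstance
    have hcard : ∃ e : ℕ, Nat.card (HH n r m) = 2 ^ e := by
      have : Fact (Nat.Prime 2) := ⟨Nat.prime_two⟩
      exact (IsPGroup.iff_card).mp (pgroup n r hT2 hr m)
    obtain ⟨ψ, hψ1, hψ2, hψ3⟩ := hAss (HH n r m) hcard (fun i => toHH n r m (t i) (htΓ i))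
      (toHH n r m u huΓ) (fun i => toHH_sq n r m (t i) (htΓ i) (ht2 i))
    refine ⟨(HH n r m).subtype.comp ψ, ?_, ?_, ?_, fun g => (ψ g).2⟩
    · have e : ((HH n r m).subtype.comp ψ).ker = ψ.ker := by
        ext g
        simp [MonoidHom.mem_ker]
      rw [e]
      exact hψ1
    · intro i
      rw [← toHH_val n r m (t i) (htΓ i), ← hψ2 i]
      rfl
    · rw [← toHH_val n r m u huΓ, ← hψ3]
      rfl
  choose Ψ hΨo hΨc hΨσ hΨH using hex
  -- compatibility
  have hcomp : ∀ m m' : ℕ, ∀ h : m ≤ m', ∀ g : P,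
      Matrix.GeneralLinearGroup.map (pi h) (Ψ m' g) = Ψ m g := by
    intro m m' h g
    have h1 : ((Matrix.GeneralLinearGroup.map (n := Fin n) (pi h)).comp (Ψ m')).eqLocus (Ψ m) =
        ⊤ := by
      apply hTop
      · apply Subgroup.isOpen_mono (H₁ := (Ψ m').ker ⊓ (Ψ m).ker)
        · rintro x ⟨hx1, hx2⟩
          show Matrix.GeneralLinearGroup.map (pi h) (Ψ m' x) = Ψ m x
          rw [MonoidHom.mem_ker.mp hx1, MonoidHom.mem_ker.mp hx2, map_one]
        · exact (hΨo m').inter (hΨo m)
      · intro i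
        show Matrix.GeneralLinearGroup.map (pi h) (Ψ m' (c i)) = Ψ m (c i)
        rw [hΨc, hΨc]
        ext a b
        rfl
      · show Matrix.GeneralLinearGroup.map (pi h) (Ψ m' σ) = Ψ m σ
        rw [hΨσ, hΨσ]
        ext a b
        rfl
    have h2 : g ∈ ((Matrix.GeneralLinearGroup.map (n := Fin n) (pi h)).comp (Ψ m')).eqLocus (Ψ m) := by
      rw [h1]
      exact Subgroup.mem_top g
    exact h2
  -- the limit
  have hlim : ∀ (g : P) (a b : Fin n), ∃ y : T, ∀ m,
      q m y = (Ψ m g : Matrix (Fin n) (Fin n) (RR T m)) a b := by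
    intro g a b
    refine exists_lim (fun m => (Ψ m g : Matrix (Fin n) (Fin n) (RR T m)) a b) ?_
    intro m m' h
    have := hcomp m m' h g
    rw [← this]
    rfl
  choose M₀ hM₀ using hlim
  let M : P → Matrix (Fin n) (Fin n) T := fun g => Matrix.of fun a b => M₀ g a b
  have hM : ∀ (m : ℕ) (g : P) (a b : Fin n),
      q m (M g a b) = (Ψ m g : Matrix (Fin n) (Fin n) (RR T m)) a b := by
    intro m g a b
    exact hM₀ g a b m
  have hMext : ∀ A B : Matrix (Fin n) (Fin n) T,
      (∀ m, A.map (q m) = B.map (q m)) → A = B := by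
    intro A B h
    ext1 a b
    apply ext_q
    intro m
    exact congrFun (congrFun (h m) a) b
  have hMmap : ∀ (m : ℕ) (g : P), (M g).map (q m) =
      (Ψ m g : Matrix (Fin n) (Fin n) (RR T m)) := by
    intro m g
    ext1 a b
    exact hM m g a b
  let Mh : P →* Matrix (Fin n) (Fin n) T :=
    { toFun := M
      map_one' := by
        apply hMext
        intro m
        rw [hMmap, map_one]
        ext1 a b
        by_cases hab : a = b
        · subst hab; simp
        · simp [hab]
      map_mul' := by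
        intro x y
        apply hMext
        intro m
        rw [hMmap, map_mul]
        have h1 : ((M x) * (M y)).map (q m) = (M x).map (q m) * (M y).map (q m) :=
          Matrix.map_mul
        rw [h1, hMmap, hMmap]
        rfl }
  refine ⟨Mh.toHomUnits, ?_, ?_, ?_, ?_⟩
  · intro g
    obtain ⟨γ, hγ, hγ2⟩ := hΨH 1 g
    have h1 : Mh.toHomUnits g ∈ Gam n r := by
      rw [mem_Gam n r hr]
      intro a b
      have h2 := (mem_Gam n r hr).mp hγ a b
      have h3 : q 1 (M g a b) = q 1 ((γ : Matrix (Fin n) (Fin n) T) a b) := by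
        rw [hM, ← hγ2]
        rfl
      rw [q_eq, pow_one] at h3
      have h4 := Ideal.add_mem _ h3 h2
      rw [Matrix.sub_apply] at h4
      show (M g - 1) a b ∈ _
      rw [Matrix.sub_apply]
      have e : M g a b - (γ : Matrix (Fin n) (Fin n) T) a b +
        ((γ : Matrix (Fin n) (Fin n) T) a b -
          (1 : Matrix (Fin n) (Fin n) T) a b) =
          M g a b - (1 : Matrix (Fin n) (Fin n) T) a b := by ring
      rwa [e] at h4
    exact MonoidHom.mem_ker.mp h1
  · intro m
    have e : {g : P | ∀ a b : Fin n,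
          ((Mh.toHomUnits g : Matrix (Fin n) (Fin n) T) - 1) a b ∈ maximalIdeal T ^ m} =
          ((Ψ m).ker : Set P) := by
      ext g
      constructor
      · intro h
        rw [SetLike.mem_coe, MonoidHom.mem_ker]
        ext a b
        have h1 : q m (M g a b) = q m ((1 : Matrix (Fin n) (Fin n) T) a b) := by
          rw [q_eq]
          exact h a b
        rw [hM] at h1
        rw [h1]
        by_cases hab : a = b
        · subst hab; simp
        · simp [hab]
      · intro h a b
        rw [SetLike.mem_coe, MonoidHom.mem_ker] at h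
        have h1 : q m (M g a b) = q m ((1 : Matrix (Fin n) (Fin n) T) a b) := by
          rw [hM, h]
          by_cases hab : a = b
          · subst hab; simp
          · simp [hab]
        rw [q_eq] at h1
        exact h1
    rw [e]
    exact hΨo m
  · intro i
    apply Units.ext
    show M (c i) = _
    apply hMext
    intro m
    rw [hMmap, hΨc]
    rfl
  · apply Units.ext
    show M σ = _
    apply hMext
    intro m
    rw [hMmap, hΨσ]
    rfl

end Pool.Agent.Helper39.MZU.Lim
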