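import Pool.Agent.Helper39.MZU.Base
import Pool.Graph.R_seed8.W21.MZ.ExA

/-!
# MP_aa8fd2_nt: power series over `k` as an object of `CNL 2 k` (helper90)
-/

set_option autoImplicit false

namespace Pool.Agent.Helper39.MZU.Ps

open MZ IsLocalRing

theorem main : S_PS := by
  intro k _ _ _ τ _
  haveI hc : IsAdicComplete (maximalIdeal k) k := by
    rw [IsLocalRing.maximalIdeal_eq_bot]
    infer_instance
  obtain ⟨a1, a2, a3⟩ := Pool.Agent.W21.MZ.exA k τ
  let alg : Algebra (WittVector 2 k) (MvPowerSeries τ k) :=
    ((MvPowerSeries.C : k →+* MvPowerSeries τ k).comp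
      (WittVector.constantCoeff : WittVector 2 k →+* k)).toAlgebra
  let T : CNL 2 k :=
    { A := MvPowerSeries τ k
      complete := a1
      alg := alg
      res := MvPowerSeries.constantCoeff
      res_surj := by
        intro c
        exact ⟨MvPowerSeries.C c, MvPowerSeries.constantCoeff_C c⟩
      res_coeff := by
        intro x
        change MvPowerSeries.constantCoeff (MvPowerSeries.C (WittVector.constantCoeff x)) = x.coeff 0
        rw [MvPowerSeries.constantCoeff_C]
        rfl }
  exact ⟨T, RingEquiv.refl _, fun x => rfl, fun x => rfl⟩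

end Pool.Agent.Helper39.MZU.Ps
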