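import Pool.Agent.Helper39.MZU.Base

/-! Topological Reidemeister–Schreier for a cyclic quotient. -/

set_option autoImplicit false

namespace Pool.Agent.Helper39.MZU.Subt

open MZ Subgroup

lemma norm_of_conj {P : Type} [Group P] (X : Set P) (g : P)
    (h1 : ∀ x ∈ X, g * x * g⁻¹ ∈ closure X) (h2 : ∀ x ∈ X, g⁻¹ * x * g ∈ closure X) :
    g ∈ normalizer (closure X : Set P) := by
  have key : ∀ g : P, (∀ x ∈ X, g * x * g⁻¹ ∈ closure X) → ∀ y ∈ closure X,
      g * y * g⁻¹ ∈ closure X := by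
    intro g h y hy
    have h3 : closure X ≤ (closure X).comap (MulAut.conj g).toMonoidHom :=
      (closure_le _).2 (fun x hx => h x hx)
    exact h3 hy
  rw [mem_normalizer_iff]
  intro y
  constructor
  · exact key g h1 y
  · intro hy
    have h4 := key g⁻¹ (by simpa using h2) _ hy
    have h5 : g⁻¹ * (g * y * g⁻¹) * g⁻¹⁻¹ = y := by group
    rwa [h5] at h4

theorem main : S_SUBT := by
  intro P _ _ _ _ _ ι c σ hT m χ hχo hχc hχσ c₀ σ₀ hC U hU hUc hUσ
  obtain ⟨hC1, hC2⟩ := hC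
  -- the subgroup of P
  let U' : Subgroup P := U.map χ.ker.subtype
  have hU'o : IsOpen (U' : Set P) := by
    have : (U' : Set P) = (Subtype.val '' (U : Set χ.ker)) := by
      simp [U', Subgroup.coe_map]
    rw [this]
    exact hχo.isOpenMap_subtype_val _ hU
  have hU'le : U' ≤ χ.ker := by
    rintro _ ⟨x, -, rfl⟩
    exact x.2
  obtain ⟨V, hV⟩ := ProfiniteGrp.exist_openNormalSubgroup_sub_open_nhds_of_one hU'o U'.one_mem
  let gen : Set P := {x | ∃ i, ∃ r : Fin (2 ^ m), x = σ ^ (r : ℕ) * c i * (σ ^ (r : ℕ))⁻¹}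
  let X : Set P := gen ∪ {σ ^ (2 ^ m)} ∪ (V : Set P)
  let M : Subgroup P := closure X
  have hσM : σ ^ (2 ^ m) ∈ M := subset_closure (Or.inl (Or.inr rfl))
  have hgM : ∀ i, ∀ r : ℕ, r < 2 ^ m → σ ^ r * c i * (σ ^ r)⁻¹ ∈ M := fun i r hr =>
    subset_closure (Or.inl (Or.inl ⟨i, ⟨r, hr⟩, rfl⟩))
  have hVM : ∀ v ∈ V, v ∈ M := fun v hv => subset_closure (Or.inr hv)
  have hpos : 0 < 2 ^ m := by positivity
  have hMU : M ≤ U' := by
    refine (closure_le _).2 ?_
    rintro x ((⟨i, r, rfl⟩ | rfl) | hx)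
    · exact ⟨c₀ (i, r), hUc _, hC1 i r⟩
    · exact ⟨σ₀, hUσ, hC2⟩
    · exact hV hx
  have key1 : ∀ (y : P) (e n : ℕ), e + 1 = n → σ * (σ ^ e * y * (σ ^ e)⁻¹) * σ⁻¹ =
      σ ^ n * (σ ^ 0 * y * (σ ^ 0)⁻¹) * (σ ^ n)⁻¹ := by
    rintro y e n rfl
    rw [pow_succ' σ]
    group
  have hnorm : σ ∈ normalizer (M : Set P) := by
    apply norm_of_conj
    · rintro x ((⟨i, r, rfl⟩ | rfl) | hx)
      · by_cases hr : (r : ℕ) + 1 < 2 ^ m
        · have := hgM i _ hr
          have e : σ * (σ ^ (r : ℕ) * c i * (σ ^ (r : ℕ))⁻¹) * σ⁻¹ =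
              σ ^ ((r : ℕ) + 1) * c i * (σ ^ ((r : ℕ) + 1))⁻¹ := by
            rw [pow_succ' σ]
            group
          rw [e]
          exact this
        · have hr' : (r : ℕ) + 1 = 2 ^ m := by have := r.2; omega
          have e : σ * (σ ^ (r : ℕ) * c i * (σ ^ (r : ℕ))⁻¹) * σ⁻¹ =
              σ ^ (2 ^ m) * (σ ^ 0 * c i * (σ ^ 0)⁻¹) * (σ ^ (2 ^ m))⁻¹ :=
            key1 _ _ _ hr'
          rw [e]
          exact M.mul_mem (M.mul_mem hσM (hgM i 0 hpos)) (M.inv_mem hσM)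
      · have e : σ * (σ ^ 2 ^ m) * σ⁻¹ = σ ^ (2 ^ m) := by
          rw [← pow_succ', pow_succ, mul_inv_cancel_right]
        rw [e]
        exact hσM
      · exact hVM _ ((V.isNormal').conj_mem _ hx σ)
    · rintro x ((⟨i, r, rfl⟩ | rfl) | hx)
      · rcases Nat.eq_zero_or_pos (r : ℕ) with hr | hr
        · obtain ⟨e, he⟩ : ∃ e, 2 ^ m = e + 1 := ⟨2 ^ m - 1, by omega⟩
          have h0 : σ⁻¹ * (σ ^ (r : ℕ) * c i * (σ ^ (r : ℕ))⁻¹) * σ =
              (σ ^ (2 ^ m))⁻¹ * (σ ^ e * c i * (σ ^ e)⁻¹) * σ ^ (2 ^ m) := by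
            have key2 : ∀ (y : P) (n : ℕ), n = e + 1 → σ⁻¹ * (σ ^ 0 * y * (σ ^ 0)⁻¹) * σ =
                (σ ^ n)⁻¹ * (σ ^ e * y * (σ ^ e)⁻¹) * σ ^ n := by
              rintro y n rfl
              rw [pow_succ σ]
              group
            rw [hr]
            exact key2 _ _ he
          rw [h0]
          exact M.mul_mem (M.mul_mem (M.inv_mem hσM) (hgM i e (by omega))) hσM
        · obtain ⟨e, he⟩ : ∃ e, (r : ℕ) = e + 1 := ⟨r - 1, by omega⟩
          have h0 : σ⁻¹ * (σ ^ (r : ℕ) * c i * (σ ^ (r : ℕ))⁻¹) * σ =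
              σ ^ e * c i * (σ ^ e)⁻¹ := by
            rw [he, pow_succ' σ]
            group
          rw [h0]
          exact hgM i e (by have := r.2; omega)
      · have e : σ⁻¹ * (σ ^ 2 ^ m) * σ = σ ^ (2 ^ m) := by
          rw [mul_assoc, ← pow_succ, pow_succ', inv_mul_cancel_left]
        rw [e]
        exact hσM
      · have := (V.isNormal').conj_mem _ hx σ⁻¹
        rw [inv_inv] at this
        exact hVM _ this
  -- the subgroup generated by M and σ
  have hJ : zpowers σ ⊔ M = ⊤ := by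
    apply hT
    · refine Subgroup.isOpen_mono (H₁ := V.toSubgroup) ?_ V.isOpen'
      intro v hv
      exact (le_sup_right : M ≤ _) (hVM v hv)
    · intro i
      have := hgM i 0 hpos
      rw [pow_zero, one_mul, inv_one, mul_one] at this
      exact (le_sup_right : M ≤ _) this
    · exact (le_sup_left : zpowers σ ≤ _) (mem_zpowers σ)
  have hz : zpowers σ ≤ normalizer (M : Set P) := by
    rw [zpowers_le]
    exact hnorm
  rw [eq_top_iff]
  intro x _
  have hx : (x : P) ∈ ((zpowers σ ⊔ M : Subgroup P) : Set P) := by rw [hJ]; trivial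
  rw [coe_mul_of_left_le_normalizer_right _ _ hz] at hx
  obtain ⟨s, ⟨z, rfl⟩, y, hy, hxy⟩ := Set.mem_mul.1 hx
  have h1 : χ (σ ^ z) = 1 := by
    have h2 : χ (x : P) = 1 := x.2
    have h3 : χ y = 1 := hU'le (hMU hy)
    rw [← hxy, map_mul, h3, mul_one] at h2
    exact h2
  have h4 : ((z : ℤ) : ZMod (2 ^ m)) = 0 := by
    rw [map_zpow, hχσ] at h1
    have := congrArg Multiplicative.toAdd h1
    simpa using this
  rw [ZMod.intCast_zmod_eq_zero_iff_dvd] at h4
  obtain ⟨w, rfl⟩ := h4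
  have h5 : (x : P) ∈ U' := by
    rw [← hxy]
    refine U'.mul_mem ?_ (hMU hy)
    have : σ ^ (((2 ^ m : ℕ) : ℤ) * w) = (σ ^ (2 ^ m)) ^ w := by
      rw [zpow_mul, zpow_natCast]
    show σ ^ (((2 ^ m : ℕ) : ℤ) * w) ∈ U'
    rw [this]
    exact U'.zpow_mem (hMU hσM) w
  obtain ⟨u, hu, hux⟩ := h5
  have : u = x := Subtype.ext hux
  rw [← this]
  exact hu

end Pool.Agent.Helper39.MZU.Subt
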